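import Mathlib

set_option autoImplicit false

open MeasureTheory Finset

namespace Pool.Agent.TH871.K2

/-- Cauchy-Schwarz for a finite family of sets. -/
theorem cs_sets {X ι : Type*} [MeasurableSpace X] (μ : Measure X) (I : Finset ι)
    (B : ι → Set X) (hB : ∀ i ∈ I, MeasurableSet (B i)) (hBf : ∀ i ∈ I, μ (B i) ≠ ⊤)
    (V : Set X) (hV : MeasurableSet V) (hVf : μ V ≠ ⊤) :
    (∑ i ∈ I, μ.real (B i ∩ V)) ^ 2 ≤
      μ.real V * ∑ i ∈ I, ∑ j ∈ I, μ.real (B i ∩ B j) := by
  classical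
  have hint : ∀ s : Set X, MeasurableSet s → μ s ≠ ⊤ →
      Integrable (s.indicator (fun _ => (1 : ℝ))) μ := fun s hs hf =>
    (integrable_indicator_iff hs).2 (integrableOn_const hf)
  have hival : ∀ s : Set X, MeasurableSet s → ∫ x, s.indicator (fun _ => (1 : ℝ)) x ∂μ = μ.real s := by
    intro s hs
    rw [integral_indicator hs]
    simp
  have hmul : ∀ (s t : Set X) (x : X), s.indicator (fun _ => (1 : ℝ)) x * t.indicator (fun _ => (1 : ℝ)) x
      = (s ∩ t).indicator (fun _ => (1 : ℝ)) x := by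
    intro s t x
    by_cases h1 : x ∈ s <;> by_cases h2 : x ∈ t <;> simp [h1, h2]
  have hfin2 : ∀ i ∈ I, ∀ j ∈ I, μ (B i ∩ B j) ≠ ⊤ := fun i hi j hj =>
    ne_top_of_le_ne_top (hBf i hi) (measure_mono Set.inter_subset_left)
  have hfinV : ∀ i ∈ I, μ (B i ∩ V) ≠ ⊤ := fun i hi =>
    ne_top_of_le_ne_top (hBf i hi) (measure_mono Set.inter_subset_left)
  have key : ∀ l : ℝ, 0 ≤ μ.real V * (l * l) + (-(2 * ∑ i ∈ I, μ.real (B i ∩ V))) * l +
      ∑ i ∈ I, ∑ j ∈ I, μ.real (B i ∩ B j) := by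
    intro l
    have h0 : 0 ≤ ∫ x, (∑ i ∈ I, (B i).indicator (fun _ => (1 : ℝ)) x -
        l * V.indicator (fun _ => (1 : ℝ)) x) ^ 2 ∂μ := integral_nonneg (fun x => sq_nonneg _)
    have h1 : ∀ x, (∑ i ∈ I, (B i).indicator (fun _ => (1 : ℝ)) x -
        l * V.indicator (fun _ => (1 : ℝ)) x) ^ 2 =
        (∑ i ∈ I, ∑ j ∈ I, (B i ∩ B j).indicator (fun _ => (1 : ℝ)) x)
        - (2 * l) * (∑ i ∈ I, (B i ∩ V).indicator (fun _ => (1 : ℝ)) x)
        + (l * l) * V.indicator (fun _ => (1 : ℝ)) x := by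
      intro x
      have e1 : (∑ i ∈ I, (B i).indicator (fun _ => (1 : ℝ)) x) *
          (∑ i ∈ I, (B i).indicator (fun _ => (1 : ℝ)) x) =
          ∑ i ∈ I, ∑ j ∈ I, (B i ∩ B j).indicator (fun _ => (1 : ℝ)) x := by
        rw [Finset.sum_mul_sum]
        exact Finset.sum_congr rfl (fun i _ => Finset.sum_congr rfl (fun j _ => hmul _ _ _))
      have e2 : (∑ i ∈ I, (B i).indicator (fun _ => (1 : ℝ)) x) * V.indicator (fun _ => (1 : ℝ)) x =
          ∑ i ∈ I, (B i ∩ V).indicator (fun _ => (1 : ℝ)) x := by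
        rw [Finset.sum_mul]
        exact Finset.sum_congr rfl (fun i _ => hmul _ _ _)
      have e3 : V.indicator (fun _ => (1 : ℝ)) x * V.indicator (fun _ => (1 : ℝ)) x =
          V.indicator (fun _ => (1 : ℝ)) x := by
        rw [hmul, Set.inter_self]
      rw [← e1, ← e2]
      linear_combination (l * l) * e3
    simp_rw [h1] at h0
    have i1 : Integrable (fun x => ∑ i ∈ I, ∑ j ∈ I, (B i ∩ B j).indicator (fun _ => (1 : ℝ)) x) μ :=
      integrable_finsetSum _ (fun i hi => integrable_finsetSum _ (fun j hj =>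
        hint _ ((hB i hi).inter (hB j hj)) (hfin2 i hi j hj)))
    have i2 : Integrable (fun x => ∑ i ∈ I, (B i ∩ V).indicator (fun _ => (1 : ℝ)) x) μ :=
      integrable_finsetSum _ (fun i hi => hint _ ((hB i hi).inter hV) (hfinV i hi))
    have i3 : Integrable (fun x => V.indicator (fun _ => (1 : ℝ)) x) μ := hint _ hV hVf
    have a1 := integral_add (i1.sub (i2.const_mul (2 * l))) (i3.const_mul (l * l))
    have a2 := integral_sub i1 (i2.const_mul (2 * l))
    simp only [Pi.sub_apply] at a1 a2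
    rw [a1, a2, integral_const_mul, integral_const_mul,
      integral_finsetSum _ (fun i hi => integrable_finsetSum _ (fun j hj =>
        hint _ ((hB i hi).inter (hB j hj)) (hfin2 i hi j hj))),
      integral_finsetSum _ (fun i hi => hint _ ((hB i hi).inter hV) (hfinV i hi)),
      hival V hV] at h0
    have e4 : ∑ i ∈ I, ∫ x, ∑ j ∈ I, (B i ∩ B j).indicator (fun _ => (1 : ℝ)) x ∂μ =
        ∑ i ∈ I, ∑ j ∈ I, μ.real (B i ∩ B j) := by
      refine Finset.sum_congr rfl (fun i hi => ?_)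
      rw [integral_finsetSum _ (fun j hj => hint _ ((hB i hi).inter (hB j hj)) (hfin2 i hi j hj))]
      exact Finset.sum_congr rfl (fun j hj => hival _ ((hB i hi).inter (hB j hj)))
    have e5 : ∑ i ∈ I, ∫ x, (B i ∩ V).indicator (fun _ => (1 : ℝ)) x ∂μ =
        ∑ i ∈ I, μ.real (B i ∩ V) :=
      Finset.sum_congr rfl (fun i hi => hival _ ((hB i hi).inter hV))
    rw [e4, e5] at h0
    linarith
  have hd := discrim_le_zero key
  unfold discrim at hd
  nlinarith

end Pool.Agent.TH871.K2
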