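import Mathlib

set_option autoImplicit false

open Finset

namespace Pool.Agent.TH871.K2

/-- Bezout form of primitivity of an integer triple. -/
def Prim (t s₁ s₂ : ℤ) : Prop := ∃ α β γ : ℤ, α * t + β * s₁ + γ * s₂ = 1

/-- distance from `n * y` to the nearest integer -/
noncomputable def dn (y : ℝ) (n : ℕ) : ℝ := |(n : ℝ) * y - round ((n : ℝ) * y)|

/-- the super good approximations of `(y₁,y₂)` -/
def InT (y₁ y₂ : ℝ) (t : ℕ) : Prop :=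
  1 ≤ t ∧ Prim t (round ((t : ℝ) * y₁)) (round ((t : ℝ) * y₂)) ∧
  dn y₁ t < 1 / (4 * (t : ℝ) ^ 2) ∧ dn y₂ t < 1 / (4 * (t : ℝ) ^ 2)

/-- `n` is a multiple of the super good approximation `t` -/
def WildBy (y₁ y₂ : ℝ) (n t : ℕ) : Prop :=
  InT y₁ y₂ t ∧ ∃ k : ℕ, n = k * t ∧
    round ((n : ℝ) * y₁) = k * round ((t : ℝ) * y₁) ∧
    round ((n : ℝ) * y₂) = k * round ((t : ℝ) * y₂)

theorem prim_dvd {t s₁ s₂ D M₁ M₂ : ℤ} (h : Prim t s₁ s₂) (h1 : t * M₁ = D * s₁)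
    (h2 : t * M₂ = D * s₂) : t ∣ D := by
  obtain ⟨α, β, γ, h⟩ := h
  refine ⟨α * D + β * M₁ + γ * M₂, ?_⟩
  calc D = D * (α * t + β * s₁ + γ * s₂) := by rw [h, mul_one]
    _ = _ := by linear_combination (-β) * h1 - γ * h2

theorem int_eq_of_abs_lt_one {a b : ℤ} (h : |(a : ℝ) - b| < 1) : a = b := by
  have h1 : |a - b| < 1 := by exact_mod_cast h
  have := Int.abs_lt_one_iff.mp h1
  omega

theorem growth {y₁ y₂ : ℝ} {t₁ t₂ : ℕ} (h₁ : InT y₁ y₂ t₁) (h₂ : InT y₁ y₂ t₂) (hlt : t₁ < t₂) :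
    2 * t₁ ≤ t₂ := by
  by_contra hcon
  push Not at hcon
  obtain ⟨h1, hp1, ha1, hb1⟩ := h₁
  obtain ⟨h2, hp2, ha2, hb2⟩ := h₂
  have ht1 : (1 : ℝ) ≤ t₁ := by exact_mod_cast h1
  have ht2 : (t₁ : ℝ) < t₂ := by exact_mod_cast hlt
  have ht3 : (t₂ : ℝ) < 2 * t₁ := by exact_mod_cast hcon
  have key : ∀ y : ℝ, dn y t₁ < 1 / (4 * (t₁ : ℝ) ^ 2) → dn y t₂ < 1 / (4 * (t₂ : ℝ) ^ 2) →
      (t₂ : ℤ) * round ((t₁ : ℝ) * y) = t₁ * round ((t₂ : ℝ) * y) := by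
    intro y hy1 hy2
    apply int_eq_of_abs_lt_one
    push_cast
    unfold dn at hy1 hy2
    have e : (t₂ : ℝ) * (round ((t₁ : ℝ) * y) : ℝ) - t₁ * (round ((t₂ : ℝ) * y) : ℝ) =
      t₁ * ((t₂ : ℝ) * y - round ((t₂ : ℝ) * y)) - t₂ * ((t₁ : ℝ) * y - round ((t₁ : ℝ) * y)) := by ring
    rw [e]
    have hA : |(t₁ : ℝ) * ((t₂ : ℝ) * y - round ((t₂ : ℝ) * y))| ≤ 1 / 4 := by
      rw [abs_mul, abs_of_pos (by linarith : (0 : ℝ) < t₁)]
      calc (t₁ : ℝ) * |(t₂ : ℝ) * y - round ((t₂ : ℝ) * y)| ≤ t₂ * (1 / (4 * (t₂ : ℝ) ^ 2)) := by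
            apply mul_le_mul ht2.le hy2.le (abs_nonneg _) (by linarith)
        _ ≤ 1 / 4 := by
            rw [mul_one_div, div_le_div_iff₀ (by positivity) (by norm_num)]
            nlinarith
    have hB : |(t₂ : ℝ) * ((t₁ : ℝ) * y - round ((t₁ : ℝ) * y))| < 1 / 2 + 1 / 8 := by
      rw [abs_mul, abs_of_pos (by linarith : (0 : ℝ) < t₂)]
      calc (t₂ : ℝ) * |(t₁ : ℝ) * y - round ((t₁ : ℝ) * y)| ≤ (2 * t₁) * (1 / (4 * (t₁ : ℝ) ^ 2)) := by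
            apply mul_le_mul ht3.le hy1.le (abs_nonneg _) (by linarith)
        _ < 1 / 2 + 1 / 8 := by
            rw [mul_one_div, div_lt_iff₀ (by positivity)]
            nlinarith
    calc _ ≤ |(t₁ : ℝ) * ((t₂ : ℝ) * y - round ((t₂ : ℝ) * y))| +
        |(t₂ : ℝ) * ((t₁ : ℝ) * y - round ((t₁ : ℝ) * y))| := abs_sub _ _
      _ < 1 := by linarith
  have k1 := key y₁ ha1 ha2
  have k2 := key y₂ hb1 hb2
  have := prim_dvd hp2 k1 k2
  have := Int.le_of_dvd (by exact_mod_cast h1) this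
  omega

theorem log_inj {y₁ y₂ : ℝ} {t₁ t₂ : ℕ} (h₁ : InT y₁ y₂ t₁) (h₂ : InT y₁ y₂ t₂)
    (h : Nat.log 2 t₁ = Nat.log 2 t₂) : t₁ = t₂ := by
  rcases lt_trichotomy t₁ t₂ with hlt | heq | hgt
  · exfalso
    have h3 := growth h₁ h₂ hlt
    have h4 : Nat.log 2 (t₁ * 2) ≤ Nat.log 2 t₂ := Nat.log_mono_right (by omega)
    rw [Nat.log_mul_base (by norm_num) (by have := h₁.1; omega)] at h4
    omega
  · exact heq
  · exfalso
    have h3 := growth h₂ h₁ hgt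
    have h4 : Nat.log 2 (t₂ * 2) ≤ Nat.log 2 t₁ := Nat.log_mono_right (by omega)
    rw [Nat.log_mul_base (by norm_num) (by have := h₂.1; omega)] at h4
    omega

theorem sumT {y₁ y₂ : ℝ} (F : Finset ℕ) (hF : ∀ t ∈ F, InT y₁ y₂ t) :
    ∑ t ∈ F, (1 : ℝ) / t ≤ 2 := by
  classical
  have h1 : ∀ t ∈ F, (1 : ℝ) / t ≤ (1 / 2 : ℝ) ^ (Nat.log 2 t) := by
    intro t ht
    have h2 := (hF t ht).1
    have h3 : 2 ^ Nat.log 2 t ≤ t := Nat.pow_log_le_self 2 (by omega)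
    have h4 : ((2 : ℝ) ^ Nat.log 2 t) ≤ t := by exact_mod_cast h3
    rw [one_div_pow]
    exact one_div_le_one_div_of_le (by positivity) h4
  calc ∑ t ∈ F, (1 : ℝ) / t ≤ ∑ t ∈ F, (1 / 2 : ℝ) ^ (Nat.log 2 t) := Finset.sum_le_sum h1
    _ = ∑ j ∈ F.image (Nat.log 2), (1 / 2 : ℝ) ^ j := by
        rw [Finset.sum_image]
        intro a ha b hb hab
        exact log_inj (hF a ha) (hF b hb) hab
    _ ≤ ∑' j : ℕ, (1 / 2 : ℝ) ^ j :=
        Summable.sum_le_tsum _ (fun _ _ => by positivity) summable_geometric_two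
    _ = 2 := tsum_geometric_two

theorem cardT {y₁ y₂ : ℝ} (F : Finset ℕ) (hF : ∀ t ∈ F, InT y₁ y₂ t) (q : ℕ)
    (hq : ∀ t ∈ F, t ≤ q) : F.card ≤ Nat.log 2 q + 1 := by
  classical
  have : F.card = (F.image (Nat.log 2)).card := by
    rw [Finset.card_image_of_injOn]
    intro a ha b hb hab
    exact log_inj (hF a ha) (hF b hb) hab
  rw [this]
  calc (F.image (Nat.log 2)).card ≤ (Finset.range (Nat.log 2 q + 1)).card := by
        apply Finset.card_le_card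
        intro j hj
        obtain ⟨t, ht, rfl⟩ := Finset.mem_image.mp hj
        rw [Finset.mem_range]
        have := Nat.log_mono_right (b := 2) (hq t ht)
        omega
    _ = _ := Finset.card_range _

end Pool.Agent.TH871.K2
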