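import Mathlib
import Pool.Agent.TH871.K2.NT

set_option autoImplicit false

open Finset

namespace Pool.Agent.TH871.K2

theorem dn_le (y : ℝ) (n : ℕ) (m : ℤ) : dn y n ≤ |(n : ℝ) * y - m| := round_le _ _

theorem dn_sub {y v : ℝ} {n₁ n₂ : ℕ} (h : n₁ ≤ n₂) (h1 : dn y n₁ < v) (h2 : dn y n₂ < v) :
    |((n₂ - n₁ : ℕ) : ℝ) * y - ((round ((n₂ : ℝ) * y) - round ((n₁ : ℝ) * y) : ℤ) : ℝ)| < 2 * v := by
  unfold dn at h1 h2
  push_cast [Nat.cast_sub h]
  have e : ((n₂ : ℝ) - n₁) * y - (round ((n₂ : ℝ) * y) - round ((n₁ : ℝ) * y)) =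
    ((n₂ : ℝ) * y - round ((n₂ : ℝ) * y)) - ((n₁ : ℝ) * y - round ((n₁ : ℝ) * y)) := by ring
  rw [e]
  calc _ ≤ |(n₂ : ℝ) * y - round ((n₂ : ℝ) * y)| + |(n₁ : ℝ) * y - round ((n₁ : ℝ) * y)| := abs_sub _ _
    _ < 2 * v := by linarith

/-- The main counting lemma: few tame `n ≤ N` with both `‖n y_i‖ < v`. -/
theorem lemB (y₁ y₂ v : ℝ) (hv : 0 < v) (hv8 : v ≤ 1 / 8) (N : ℕ) (F : Finset ℕ)
    (hF : ∀ n ∈ F, 1 ≤ n ∧ n ≤ N ∧ dn y₁ n < v ∧ dn y₂ n < v ∧ ∀ t, ¬ WildBy y₁ y₂ n t) :
    (F.card : ℝ) ≤ 24 * N * √v := by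
  classical
  have hsv : 0 < √v := Real.sqrt_pos.mpr hv
  have hsq : √v * √v = v := Real.mul_self_sqrt hv.le
  have hsle : √v ≤ 1 / 2 := by
    by_contra hcon
    push Not at hcon
    nlinarith
  rcases F.eq_empty_or_nonempty with hFe | hFne
  · rw [hFe]; simp; positivity
  obtain ⟨n₀, hn₀⟩ := hFne
  have hex : ∃ t : ℕ, 1 ≤ t ∧ dn y₁ t < 2 * v ∧ dn y₂ t < 2 * v := by
    obtain ⟨h1, -, h2, h3, -⟩ := hF n₀ hn₀
    exact ⟨n₀, h1, by linarith, by linarith⟩
  let t := Nat.find hex
  have ht : 1 ≤ t ∧ dn y₁ t < 2 * v ∧ dn y₂ t < 2 * v := Nat.find_spec hex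
  have hmin : ∀ m : ℕ, 1 ≤ m → dn y₁ m < 2 * v → dn y₂ m < 2 * v → t ≤ m := fun m h1 h2 h3 =>
    Nat.find_min' hex ⟨h1, h2, h3⟩
  have ht1 : (1 : ℝ) ≤ t := by exact_mod_cast ht.1
  have hN1 : (1 : ℝ) ≤ N := by
    obtain ⟨h1, h2, -⟩ := hF n₀ hn₀
    exact_mod_cast h1.trans h2
  -- differences
  have hdiff : ∀ n₁ ∈ F, ∀ n₂ ∈ F, n₁ < n₂ → t ≤ n₂ - n₁ := by
    intro n₁ h1 n₂ h2 hlt
    obtain ⟨-, -, a1, b1, -⟩ := hF n₁ h1
    obtain ⟨-, -, a2, b2, -⟩ := hF n₂ h2
    exact hmin _ (by omega) ((dn_le _ _ _).trans_lt (dn_sub hlt.le a1 a2))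
      ((dn_le _ _ _).trans_lt (dn_sub hlt.le b1 b2))
  by_cases hcase : 1 ≤ 4 * √v * t
  · -- Case 1
    have hcard : F.card ≤ N / t := by
      have : F.card = (F.image (fun n => n / t)).card := by
        rw [Finset.card_image_of_injOn]
        intro a ha b hb hab
        simp only at hab
        by_contra hne
        rcases lt_or_gt_of_ne hne with hlt | hlt
        · have h3 := hdiff a ha b hb hlt
          have h4 : a / t + 1 ≤ b / t := by
            rw [← Nat.add_div_right _ ht.1]
            exact Nat.div_le_div_right (by omega)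
          omega
        · have h3 := hdiff b hb a ha hlt
          have h4 : b / t + 1 ≤ a / t := by
            rw [← Nat.add_div_right _ ht.1]
            exact Nat.div_le_div_right (by omega)
          omega
      rw [this]
      calc (F.image (fun n => n / t)).card ≤ (Finset.Icc 1 (N / t)).card := by
            apply Finset.card_le_card
            intro j hj
            obtain ⟨n, hn, rfl⟩ := Finset.mem_image.mp hj
            obtain ⟨h1, h2, a, b, -⟩ := hF n hn
            rw [Finset.mem_Icc]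
            refine ⟨?_, Nat.div_le_div_right h2⟩
            rw [Nat.one_le_div_iff ht.1]
            exact hmin n h1 (by linarith) (by linarith)
        _ = N / t := by simp
    calc (F.card : ℝ) ≤ ((N / t : ℕ) : ℝ) := by exact_mod_cast hcard
      _ ≤ (N : ℝ) / t := Nat.cast_div_le
      _ ≤ 24 * N * √v := by
          rw [div_le_iff₀ (by linarith)]
          have : (N : ℝ) * 1 ≤ N * (4 * √v * t) := mul_le_mul_of_nonneg_left hcase (by linarith)
          have h5 : 0 ≤ N * √v * t := by positivity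
          nlinarith
  · -- Case 2
    push Not at hcase
    have htv : 16 * v * (t : ℝ) ^ 2 < 1 := by
      have h1 : 0 ≤ 4 * √v * t := by positivity
      have h2 : (4 * √v * t) * (4 * √v * t) < 1 := by nlinarith
      calc 16 * v * (t : ℝ) ^ 2 = (4 * √v * t) * (4 * √v * t) := by linear_combination (-16 * (t : ℝ) ^ 2) * hsq
        _ < 1 := h2
    have htv' : (t : ℝ) * v < 1 / 16 := by nlinarith
    set s₁ := round ((t : ℝ) * y₁) with hs₁
    set s₂ := round ((t : ℝ) * y₂) with hs₂
    -- primitivity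
    have hprim : Prim t s₁ s₂ := by
      set g : ℕ := Int.gcd (Int.gcd t s₁) s₂ with hg
      have hgt : (g : ℤ) ∣ t := (Int.gcd_dvd_left _ _).trans (Int.gcd_dvd_left _ _)
      have hgs1 : (g : ℤ) ∣ s₁ := (Int.gcd_dvd_left _ _).trans (Int.gcd_dvd_right _ _)
      have hgs2 : (g : ℤ) ∣ s₂ := Int.gcd_dvd_right _ _
      obtain ⟨t', ht'⟩ : g ∣ t := by exact_mod_cast hgt
      obtain ⟨u₁, hu₁⟩ := hgs1
      obtain ⟨u₂, hu₂⟩ := hgs2
      have hg0 : 1 ≤ g := by
        rcases Nat.eq_zero_or_pos g with h | h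
        · rw [h, zero_mul] at ht'; omega
        · exact h
      have ht'1 : 1 ≤ t' := by
        rcases Nat.eq_zero_or_pos t' with h | h
        · rw [h, mul_zero] at ht'; omega
        · exact h
      have hgr : (1 : ℝ) ≤ g := by exact_mod_cast hg0
      have hsmall : ∀ y : ℝ, ∀ u : ℤ, round ((t : ℝ) * y) = g * u → dn y t < 2 * v →
          dn y t' < 2 * v := by
        intro y u hu hy
        refine (dn_le y t' u).trans_lt ?_
        unfold dn at hy
        rw [hu, ht'] at hy
        push_cast at hy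
        have e : (g : ℝ) * t' * y - g * u = g * (t' * y - u) := by ring
        rw [e, abs_mul, abs_of_pos (by linarith : (0 : ℝ) < g)] at hy
        nlinarith [abs_nonneg ((t' : ℝ) * y - u)]
      have hle := hmin t' ht'1 (hsmall y₁ u₁ hu₁ ht.2.1) (hsmall y₂ u₂ hu₂ ht.2.2)
      have hg1 : g = 1 := by
        rw [ht'] at hle
        have : g * t' ≤ 1 * t' := by rw [one_mul]; exact hle
        have := Nat.le_of_mul_le_mul_right this ht'1
        omega
      have b1 := Int.gcd_eq_gcd_ab (t : ℤ) s₁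
      have b2 := Int.gcd_eq_gcd_ab ((Int.gcd t s₁ : ℕ) : ℤ) s₂
      rw [← hg, hg1] at b2
      refine ⟨Int.gcdA t s₁ * Int.gcdA (Int.gcd t s₁) s₂, Int.gcdB t s₁ * Int.gcdA (Int.gcd t s₁) s₂,
        Int.gcdB (Int.gcd t s₁) s₂, ?_⟩
      push_cast at b2
      rw [b2, b1]
      ring
    have hInT : InT y₁ y₂ t := by
      refine ⟨ht.1, hprim, ?_, ?_⟩
      · refine ht.2.1.trans ?_
        rw [lt_div_iff₀ (by positivity)]
        nlinarith
      · refine ht.2.2.trans ?_
        rw [lt_div_iff₀ (by positivity)]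
        nlinarith
    set ε := max (dn y₁ t) (dn y₂ t) with hε
    have hεv : ε < 2 * v := max_lt ht.2.1 ht.2.2
    have hε0 : 0 ≤ ε := le_max_of_le_left (abs_nonneg _)
    -- each n in F has n * ε > 1/2
    have hbig : ∀ n ∈ F, 1 / 2 < n * ε := by
      intro n hn
      obtain ⟨h1, h2, a, b, hw⟩ := hF n hn
      by_contra hcon
      push Not at hcon
      have key : ∀ y : ℝ, dn y n < v → dn y t ≤ ε →
          (t : ℤ) * round ((n : ℝ) * y) = n * round ((t : ℝ) * y) := by
        intro y hy1 hy2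
        apply int_eq_of_abs_lt_one
        push_cast
        unfold dn at hy1 hy2
        have e : (t : ℝ) * (round ((n : ℝ) * y) : ℝ) - n * (round ((t : ℝ) * y) : ℝ) =
          n * ((t : ℝ) * y - round ((t : ℝ) * y)) - t * ((n : ℝ) * y - round ((n : ℝ) * y)) := by ring
        rw [e]
        have hn0 : (0 : ℝ) ≤ n := by positivity
        calc _ ≤ |(n : ℝ) * ((t : ℝ) * y - round ((t : ℝ) * y))| +
            |(t : ℝ) * ((n : ℝ) * y - round ((n : ℝ) * y))| := abs_sub _ _
          _ = n * |(t : ℝ) * y - round ((t : ℝ) * y)| + t * |(n : ℝ) * y - round ((n : ℝ) * y)| := by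
              rw [abs_mul, abs_mul, abs_of_nonneg hn0, abs_of_pos (by linarith : (0 : ℝ) < t)]
          _ ≤ n * ε + t * v := by
              apply add_le_add
              · exact mul_le_mul_of_nonneg_left hy2 hn0
              · exact mul_le_mul_of_nonneg_left hy1.le (by linarith)
          _ < 1 := by linarith
      have k1 := key y₁ a (le_max_left _ _)
      have k2 := key y₂ b (le_max_right _ _)
      have hdvd := prim_dvd hprim k1 k2
      obtain ⟨k, hk⟩ : t ∣ n := by exact_mod_cast hdvd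
      apply hw t
      refine ⟨hInT, k, by rw [hk]; ring, ?_, ?_⟩
      · have ht0 : (t : ℤ) ≠ 0 := by have := ht.1; omega
        apply mul_left_cancel₀ ht0
        rw [k1, hk]; push_cast; ring
      · have ht0 : (t : ℤ) ≠ 0 := by have := ht.1; omega
        apply mul_left_cancel₀ ht0
        rw [k2, hk]; push_cast; ring
    have hεpos : 0 < ε := by
      have := hbig n₀ hn₀
      rcases hε0.lt_or_eq with h | h
      · exact h
      · rw [← h] at this; linarith
    have hNε : 1 < 2 * ε * N := by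
      have h1 := hbig n₀ hn₀
      have h2 : (n₀ : ℝ) ≤ N := by exact_mod_cast (hF n₀ hn₀).2.1
      have h3 : (n₀ : ℝ) * ε ≤ N * ε := mul_le_mul_of_nonneg_right h2 hε0
      linarith
    -- windows
    set K : ℕ := ⌈2 * v / ε⌉₊ with hK
    have hfib : ∀ b ∈ Finset.range (⌊4 * ε * N⌋₊ + 1),
        (F.filter (fun n : ℕ => ⌊4 * ε * (n : ℝ)⌋₊ = b)).card ≤ K := by
      intro b _
      rcases (F.filter (fun n : ℕ => ⌊4 * ε * (n : ℝ)⌋₊ = b)).eq_empty_or_nonempty with he | hne
      · rw [he]; simp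
      set W := F.filter (fun n : ℕ => ⌊4 * ε * (n : ℝ)⌋₊ = b) with hW
      set n₁ := W.min' hne with hn₁
      have hn₁W : n₁ ∈ W := Finset.min'_mem _ _
      have hn₁F : n₁ ∈ F := (Finset.mem_filter.mp hn₁W).1
      have hmain : ∀ n ∈ W, ∃ k : ℕ, n - n₁ = k * t ∧ k < K := by
        intro n hn
        have hle : n₁ ≤ n := Finset.min'_le _ _ hn
        rcases hle.eq_or_lt with heq | hlt
        · refine ⟨0, by omega, ?_⟩
          rw [hK]
          exact Nat.ceil_pos.mpr (by positivity)
        obtain ⟨hnF, hnb⟩ := Finset.mem_filter.mp hn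
        have hn₁b := (Finset.mem_filter.mp hn₁W).2
        obtain ⟨-, -, a1, b1, -⟩ := hF n₁ hn₁F
        obtain ⟨-, -, a2, b2, -⟩ := hF n hnF
        have hDε : ((n - n₁ : ℕ) : ℝ) * ε < 1 / 4 := by
          have u1 := Nat.lt_floor_add_one (4 * ε * (n : ℝ))
          have u2 := Nat.floor_le (by positivity : 0 ≤ 4 * ε * (n₁ : ℝ))
          rw [hnb] at u1
          rw [hn₁b] at u2
          push_cast [Nat.cast_sub hle]
          nlinarith
        have key : ∀ y : ℝ, dn y n₁ < v → dn y n < v → dn y t ≤ ε →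
            (t : ℤ) * (round ((n : ℝ) * y) - round ((n₁ : ℝ) * y)) = ((n - n₁ : ℕ) : ℤ) * round ((t : ℝ) * y) := by
          intro y hy1 hy2 hy3
          have hd := dn_sub hle hy1 hy2
          apply int_eq_of_abs_lt_one
          unfold dn at hy3
          set D := n - n₁ with hD
          set M : ℤ := round ((n : ℝ) * y) - round ((n₁ : ℝ) * y) with hM
          push_cast
          have e : (t : ℝ) * (M : ℝ) - (D : ℝ) * (round ((t : ℝ) * y) : ℝ) =
            D * ((t : ℝ) * y - round ((t : ℝ) * y)) - t * ((D : ℝ) * y - M) := by ring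
          rw [e]
          have hn0 : (0 : ℝ) ≤ (D : ℝ) := by positivity
          calc _ ≤ |(D : ℝ) * ((t : ℝ) * y - round ((t : ℝ) * y))| +
              |(t : ℝ) * ((D : ℝ) * y - M)| := abs_sub _ _
            _ = D * |(t : ℝ) * y - round ((t : ℝ) * y)| + t * |(D : ℝ) * y - M| := by
                rw [abs_mul, abs_mul, abs_of_nonneg hn0, abs_of_pos (by linarith : (0 : ℝ) < t)]
            _ ≤ D * ε + t * (2 * v) := by
                apply add_le_add
                · exact mul_le_mul_of_nonneg_left hy3 hn0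
                · exact mul_le_mul_of_nonneg_left hd.le (by linarith)
            _ < 1 := by linarith
        have k1 := key y₁ a1 a2 (le_max_left _ _)
        have k2 := key y₂ b1 b2 (le_max_right _ _)
        have hdvd := prim_dvd hprim k1 k2
        obtain ⟨k, hk⟩ : t ∣ n - n₁ := by exact_mod_cast hdvd
        refine ⟨k, by rw [hk]; ring, ?_⟩
        -- k * ε < 2 v
        have hkε : ∀ y : ℝ, dn y n₁ < v → dn y n < v → dn y t ≤ ε →
            (t : ℤ) * (round ((n : ℝ) * y) - round ((n₁ : ℝ) * y)) = ((n - n₁ : ℕ) : ℤ) * round ((t : ℝ) * y) →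
            (k : ℝ) * dn y t < 2 * v := by
          intro y hy1 hy2 hy3 hkk
          have hd := dn_sub hle hy1 hy2
          have ht0 : (t : ℤ) ≠ 0 := by have := ht.1; omega
          have hMk : round ((n : ℝ) * y) - round ((n₁ : ℝ) * y) = k * round ((t : ℝ) * y) := by
            apply mul_left_cancel₀ ht0
            rw [hkk, hk]; push_cast; ring
          rw [hMk, hk] at hd
          push_cast at hd
          have e : (t : ℝ) * k * y - k * (round ((t : ℝ) * y) : ℝ) =
            k * ((t : ℝ) * y - round ((t : ℝ) * y)) := by ring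
          rw [e, abs_mul, abs_of_nonneg (by positivity : (0 : ℝ) ≤ k)] at hd
          exact hd
        have hkε' : (k : ℝ) * ε < 2 * v := by
          rcases max_choice (dn y₁ t) (dn y₂ t) with h | h
          · rw [hε, h]; exact hkε y₁ a1 a2 (le_max_left _ _) k1
          · rw [hε, h]; exact hkε y₂ b1 b2 (le_max_right _ _) k2
        have : (k : ℝ) < 2 * v / ε := by rw [lt_div_iff₀ hεpos]; exact hkε'
        exact_mod_cast this.trans_le (Nat.le_ceil _)
      calc W.card = (W.image (fun n => (n - n₁) / t)).card := by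
            rw [Finset.card_image_of_injOn]
            intro a ha b hb hab
            simp only at hab
            obtain ⟨ka, hka, -⟩ := hmain a ha
            obtain ⟨kb, hkb, -⟩ := hmain b hb
            rw [hka, hkb, Nat.mul_div_cancel _ ht.1, Nat.mul_div_cancel _ ht.1] at hab
            have ha' : n₁ ≤ a := Finset.min'_le _ _ ha
            have hb' : n₁ ≤ b := Finset.min'_le _ _ hb
            rw [hab] at hka
            omega
        _ ≤ (Finset.range K).card := by
            apply Finset.card_le_card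
            intro j hj
            obtain ⟨n, hn, rfl⟩ := Finset.mem_image.mp hj
            obtain ⟨k, hk, hkK⟩ := hmain n hn
            rw [hk, Nat.mul_div_cancel _ ht.1, Finset.mem_range]
            exact hkK
        _ = K := Finset.card_range _
    have hmaps : ∀ n ∈ F, ⌊4 * ε * (n : ℝ)⌋₊ ∈ Finset.range (⌊4 * ε * N⌋₊ + 1) := by
      intro n hn
      rw [Finset.mem_range, Nat.lt_succ_iff]
      apply Nat.floor_mono
      have : (n : ℝ) ≤ N := by exact_mod_cast (hF n hn).2.1
      exact mul_le_mul_of_nonneg_left this (by positivity)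
    have hcard := Finset.card_le_mul_card_image_of_maps_to hmaps K hfib
    rw [Finset.card_range] at hcard
    have hKr : (K : ℝ) ≤ 2 * v / ε + 1 := (Nat.ceil_lt_add_one (by positivity)).le
    have h2 : 1 ≤ 2 * v / ε := by rw [le_div_iff₀ hεpos]; linarith
    have hfl : ((⌊4 * ε * N⌋₊ + 1 : ℕ) : ℝ) ≤ 6 * ε * N := by
      push_cast
      have := Nat.floor_le (by positivity : 0 ≤ 4 * ε * (N : ℝ))
      linarith
    calc (F.card : ℝ) ≤ ((K * (⌊4 * ε * N⌋₊ + 1) : ℕ) : ℝ) := by exact_mod_cast hcard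
      _ = (K : ℝ) * ((⌊4 * ε * N⌋₊ + 1 : ℕ) : ℝ) := by push_cast; ring
      _ ≤ (4 * v / ε) * (6 * ε * N) := by
          apply mul_le_mul _ hfl (by positivity) (by positivity)
          calc (K : ℝ) ≤ 2 * v / ε + 1 := hKr
            _ ≤ 2 * v / ε + 2 * v / ε := by linarith
            _ = 4 * v / ε := by ring
      _ = 24 * N * v := by field_simp; ring
      _ ≤ 24 * N * √v := by
          apply mul_le_mul_of_nonneg_left _ (by positivity)
          nlinarith

end Pool.Agent.TH871.K2
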