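import Mathlib
import Pool.Agent.TH871.K2.LemB

set_option autoImplicit false

open Finset

namespace Pool.Agent.TH871.K2

/-- necessary condition for an overlap of `E_q` and `E_r` when `q = g q'`, `r = g r'`, `q < r` -/
def Cond (y₁ y₂ ψ : ℝ) (q' r' : ℕ) : Prop :=
  1 ≤ q' ∧ q' < r' ∧ ψ * q' < 1 / 8 ∧
  dn y₁ (r' - q') < 2 * ψ * r' ∧ dn y₂ (r' - q') < 2 * ψ * r' ∧
  ∀ t, WildBy y₁ y₂ (r' - q') t → r' ≤ 32 * t

theorem sum_biUnion_le' {ι α : Type*} [DecidableEq ι] [DecidableEq α] (T : Finset ι) (S : ι → Finset α)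
    (f : α → ℝ) (hf : ∀ a, 0 ≤ f a) : ∑ p ∈ T.biUnion S, f p ≤ ∑ t ∈ T, ∑ p ∈ S t, f p := by
  induction T using Finset.induction_on with
  | empty => simp
  | insert a s ha ih =>
    rw [Finset.biUnion_insert, Finset.sum_insert ha]
    have h1 := Finset.sum_union_inter (s₁ := S a) (s₂ := s.biUnion S) (f := f)
    have h2 : 0 ≤ ∑ x ∈ S a ∩ s.biUnion S, f x := Finset.sum_nonneg (fun x _ => hf x)
    linarith

theorem sum_inv_sqrt (R : ℕ) : ∑ r ∈ Finset.Icc 1 R, 1 / √(r : ℝ) ≤ 2 * √(R : ℝ) := by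
  induction R with
  | zero => simp
  | succ R ih =>
    rw [Finset.sum_Icc_succ_top (by omega)]
    have h1 : 0 < √((R + 1 : ℕ) : ℝ) := Real.sqrt_pos.mpr (by positivity)
    have h2 : 0 ≤ √(R : ℝ) := Real.sqrt_nonneg _
    have h3 : √((R + 1 : ℕ) : ℝ) * √((R + 1 : ℕ) : ℝ) = R + 1 := by
      rw [Real.mul_self_sqrt (by positivity)]; push_cast; ring
    have h4 : √(R : ℝ) * √(R : ℝ) = R := Real.mul_self_sqrt (by positivity)
    have h5 : 1 / √((R + 1 : ℕ) : ℝ) ≤ 2 * √((R + 1 : ℕ) : ℝ) - 2 * √(R : ℝ) := by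
      rw [div_le_iff₀ h1]
      nlinarith [sq_nonneg (√((R + 1 : ℕ) : ℝ) - √(R : ℝ))]
    linarith

theorem zsum_alpha (ψ : ℝ) (hψ : 0 < ψ) (hψ8 : ψ ≤ 1 / 8) (F : Finset (ℕ × ℕ))
    (hF : ∀ p ∈ F, ψ * p.1 < 1 / 8 ∧ 1 / 8 ≤ 2 * ψ * p.2) :
    ∑ p ∈ F, 1 / ((p.2 : ℝ)) ^ 2 ≤ 8 := by
  classical
  obtain ⟨R, hR⟩ : ∃ R : ℕ, ∀ p ∈ F, p.2 < R := by
    obtain ⟨R, hR⟩ := (F.image Prod.snd).bddAbove
    exact ⟨R + 1, fun p hp => Nat.lt_succ_of_le (hR (by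
      simp only [Finset.coe_image, Set.mem_image, Finset.mem_coe]; exact ⟨p, hp, rfl⟩))⟩
  set M := ⌈1 / (8 * ψ)⌉₊ with hM
  have hc : 0 < 1 / (16 * ψ) := by positivity
  obtain ⟨k, hk⟩ : ∃ k, ⌈1 / (16 * ψ)⌉₊ = k + 1 :=
    ⟨⌈1 / (16 * ψ)⌉₊ - 1, by have := Nat.ceil_pos.mpr hc; omega⟩
  have hsub : F ⊆ Finset.range M ×ˢ Finset.Ioo k R := by
    intro p hp
    obtain ⟨h1, h2⟩ := hF p hp
    rw [Finset.mem_product, Finset.mem_range, Finset.mem_Ioo]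
    refine ⟨?_, ?_, hR p hp⟩
    · have : (p.1 : ℝ) < 1 / (8 * ψ) := by rw [lt_div_iff₀ (by positivity)]; linarith
      exact_mod_cast this.trans_le (Nat.le_ceil _)
    · have h3 : 1 / (16 * ψ) ≤ (p.2 : ℝ) := by rw [div_le_iff₀ (by positivity)]; linarith
      have h4 := Nat.ceil_le.mpr h3
      omega
  have hk1 : 1 / (16 * ψ) ≤ (k : ℝ) + 1 := by
    have := Nat.le_ceil (1 / (16 * ψ))
    rw [hk] at this
    exact_mod_cast this
  calc ∑ p ∈ F, 1 / ((p.2 : ℝ)) ^ 2 ≤ ∑ p ∈ Finset.range M ×ˢ Finset.Ioo k R, 1 / ((p.2 : ℝ)) ^ 2 :=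
        Finset.sum_le_sum_of_subset_of_nonneg hsub (fun _ _ _ => by positivity)
    _ = M * ∑ i ∈ Finset.Ioo k R, ((i : ℝ) ^ 2)⁻¹ := by
        rw [Finset.sum_product]
        simp [Finset.sum_const]
    _ ≤ (1 / (8 * ψ) + 1) * (2 / (k + 1)) := by
        apply mul_le_mul _ (sum_Ioo_inv_sq_le k R) (Finset.sum_nonneg fun _ _ => by positivity) (by positivity)
        exact (Nat.ceil_lt_add_one (by positivity)).le
    _ ≤ (1 / (8 * ψ) + 1) * (2 / (1 / (16 * ψ))) := by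
        apply mul_le_mul_of_nonneg_left _ (by positivity)
        exact div_le_div_of_nonneg_left (by norm_num) hc hk1
    _ = 4 + 32 * ψ := by field_simp; ring
    _ ≤ 8 := by linarith

theorem zsum_beta (y₁ y₂ ψ : ℝ) (hψ : 0 < ψ) (F : Finset (ℕ × ℕ))
    (hF : ∀ p ∈ F, 1 ≤ p.1 ∧ p.1 < p.2 ∧ 2 * ψ * p.2 < 1 / 8 ∧
      dn y₁ (p.2 - p.1) < 2 * ψ * p.2 ∧ dn y₂ (p.2 - p.1) < 2 * ψ * p.2 ∧
      ∀ t, ¬ WildBy y₁ y₂ (p.2 - p.1) t) :
    ∑ p ∈ F, 1 / ((p.2 : ℝ)) ^ 2 ≤ 24 := by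
  classical
  set R := ⌊1 / (16 * ψ)⌋₊ with hR
  have hmaps : ∀ p ∈ F, p.2 ∈ Finset.Icc 1 R := by
    intro p hp
    obtain ⟨h1, h2, h3, -⟩ := hF p hp
    rw [Finset.mem_Icc]
    refine ⟨by omega, ?_⟩
    rw [hR]
    apply Nat.le_floor
    rw [le_div_iff₀ (by positivity)]
    linarith
  rw [← Finset.sum_fiberwise_of_maps_to hmaps]
  have hfib : ∀ r ∈ Finset.Icc 1 R, ∑ p ∈ F with p.2 = r, 1 / ((p.2 : ℝ)) ^ 2 ≤
      24 * √(2 * ψ) * (1 / √(r : ℝ)) := by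
    intro r hr
    have hr1 : (1 : ℝ) ≤ r := by exact_mod_cast (Finset.mem_Icc.mp hr).1
    have hrR : (r : ℝ) ≤ 1 / (16 * ψ) := by
      have h1 : (r : ℝ) ≤ R := by exact_mod_cast (Finset.mem_Icc.mp hr).2
      exact h1.trans (Nat.floor_le (by positivity))
    have e1 : ∑ p ∈ F with p.2 = r, 1 / ((p.2 : ℝ)) ^ 2 =
        ((F.filter (fun p => p.2 = r)).card : ℝ) * (1 / (r : ℝ) ^ 2) := by
      rw [Finset.sum_congr rfl (fun p hp => by rw [(Finset.mem_filter.mp hp).2])]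
      rw [Finset.sum_const, nsmul_eq_mul]
    have e2 : (F.filter (fun p => p.2 = r)).card =
        ((F.filter (fun p => p.2 = r)).image (fun p => p.2 - p.1)).card := by
      rw [Finset.card_image_of_injOn]
      intro a ha b hb hab
      rw [Finset.mem_coe, Finset.mem_filter] at ha hb
      simp only at hab
      have h1 := (hF a ha.1).2.1
      have h2 := (hF b hb.1).2.1
      apply Prod.ext
      · omega
      · rw [ha.2, hb.2]
    have hv : 2 * ψ * (r : ℝ) ≤ 1 / 8 := by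
      rw [le_div_iff₀ (by positivity)] at hrR
      linarith
    have e3 := lemB y₁ y₂ (2 * ψ * r) (by positivity) hv r
      ((F.filter (fun p => p.2 = r)).image (fun p => p.2 - p.1)) (by
        intro n hn
        obtain ⟨p, hp, rfl⟩ := Finset.mem_image.mp hn
        obtain ⟨hpF, hpr⟩ := Finset.mem_filter.mp hp
        obtain ⟨h1, h2, h3, h4, h5, h6⟩ := hF p hpF
        rw [hpr] at h4 h5
        refine ⟨by omega, by omega, ?_, ?_, h6⟩
        · rw [hpr]; exact h4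
        · rw [hpr]; exact h5)
    rw [e1, e2]
    have hs : √(2 * ψ * (r : ℝ)) = √(2 * ψ) * √(r : ℝ) := Real.sqrt_mul (by positivity) _
    have hrs : 0 < √(r : ℝ) := Real.sqrt_pos.mpr (by linarith)
    have hrs2 : √(r : ℝ) * √(r : ℝ) = r := Real.mul_self_sqrt (by linarith)
    calc _ ≤ (24 * r * √(2 * ψ * r)) * (1 / (r : ℝ) ^ 2) :=
          mul_le_mul_of_nonneg_right e3 (by positivity)
      _ = 24 * √(2 * ψ) * (√(r : ℝ) / r) := by rw [hs]; field_simp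
      _ = 24 * √(2 * ψ) * (1 / √(r : ℝ)) := by
          congr 1
          rw [div_eq_div_iff (by positivity) (by positivity)]
          linarith
      _ ≤ _ := le_refl _
  calc _ ≤ ∑ r ∈ Finset.Icc 1 R, 24 * √(2 * ψ) * (1 / √(r : ℝ)) := Finset.sum_le_sum hfib
    _ = 24 * √(2 * ψ) * ∑ r ∈ Finset.Icc 1 R, 1 / √(r : ℝ) := by rw [Finset.mul_sum]
    _ ≤ 24 * √(2 * ψ) * (2 * √(R : ℝ)) := mul_le_mul_of_nonneg_left (sum_inv_sqrt R) (by positivity)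
    _ ≤ 24 * √(2 * ψ) * (2 * √(1 / (16 * ψ))) := by
        apply mul_le_mul_of_nonneg_left _ (by positivity)
        apply mul_le_mul_of_nonneg_left _ (by norm_num)
        exact Real.sqrt_le_sqrt (Nat.floor_le (by positivity))
    _ = 48 * √(2 * ψ * (1 / (16 * ψ))) := by
        rw [Real.sqrt_mul (by positivity : (0 : ℝ) ≤ 2 * ψ) (1 / (16 * ψ))]; ring
    _ = 48 * √(1 / 8) := by
        congr 2; field_simp; norm_num
    _ ≤ 48 * (1 / 2) := by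
        apply mul_le_mul_of_nonneg_left _ (by norm_num)
        rw [Real.sqrt_le_left (by norm_num)]
        norm_num
    _ = 24 := by norm_num

theorem zsum_gamma (y₁ y₂ : ℝ) (F : Finset (ℕ × ℕ))
    (hF : ∀ p ∈ F, 1 ≤ p.1 ∧ p.1 < p.2 ∧
      ∃ t, WildBy y₁ y₂ (p.2 - p.1) t ∧ p.2 ≤ 32 * t) :
    ∑ p ∈ F, 1 / ((p.2 : ℝ)) ^ 2 ≤ 2000 := by
  classical
  obtain ⟨R, hR⟩ : ∃ R : ℕ, ∀ p ∈ F, p.2 < R := by
    obtain ⟨R, hR⟩ := (F.image Prod.snd).bddAbove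
    exact ⟨R + 1, fun p hp => Nat.lt_succ_of_le (hR (by
      simp only [Finset.coe_image, Set.mem_image, Finset.mem_coe]; exact ⟨p, hp, rfl⟩))⟩
  set T := (Finset.range R).filter (fun t => InT y₁ y₂ t) with hT
  set S : ℕ → Finset (ℕ × ℕ) := fun t => F.filter (fun p => WildBy y₁ y₂ (p.2 - p.1) t ∧ p.2 ≤ 32 * t) with hS
  have hcover : F ⊆ T.biUnion S := by
    intro p hp
    obtain ⟨h1, h2, t, ht, h3⟩ := hF p hp
    rw [Finset.mem_biUnion]
    refine ⟨t, ?_, Finset.mem_filter.mpr ⟨hp, ht, h3⟩⟩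
    rw [hT, Finset.mem_filter, Finset.mem_range]
    refine ⟨?_, ht.1⟩
    obtain ⟨hInT, k, hk, -⟩ := ht
    have hk1 : 1 ≤ k := by
      rcases Nat.eq_zero_or_pos k with h | h
      · rw [h, zero_mul] at hk; omega
      · exact h
    have : t ≤ k * t := Nat.le_mul_of_pos_left t hk1
    have := hR p hp
    omega
  have hSt : ∀ t ∈ T, ∑ p ∈ S t, 1 / ((p.2 : ℝ)) ^ 2 ≤ 1000 * ((1 : ℝ) / t) := by
    intro t ht
    have hInT := (Finset.mem_filter.mp ht).2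
    have ht1 : (1 : ℝ) ≤ t := by exact_mod_cast hInT.1
    have hprop : ∀ p ∈ S t, t < p.2 ∧ p.2 ≤ 32 * t ∧ ∃ k, k < 32 ∧ p.2 - p.1 = k * t ∧ p.1 < p.2 := by
      intro p hp
      obtain ⟨hpF, hw, hle⟩ := Finset.mem_filter.mp hp
      obtain ⟨h1, h2, -⟩ := hF p hpF
      obtain ⟨-, k, hk, -⟩ := hw
      have hk1 : 1 ≤ k := by
        rcases Nat.eq_zero_or_pos k with h | h
        · rw [h, zero_mul] at hk; omega
        · exact h
      have h3 : t ≤ k * t := Nat.le_mul_of_pos_left t hk1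
      refine ⟨by omega, hle, k, ?_, hk, h2⟩
      by_contra hcon
      push Not at hcon
      have : 32 * t ≤ k * t := Nat.mul_le_mul_right t hcon
      omega
    have hcard : (S t).card ≤ 31 * t * 32 := by
      calc (S t).card = ((S t).image (fun p => (p.2, (p.2 - p.1) / t))).card := by
            rw [Finset.card_image_of_injOn]
            intro a ha b hb hab
            obtain ⟨-, -, ka, -, hka, hla⟩ := hprop a ha
            obtain ⟨-, -, kb, -, hkb, hlb⟩ := hprop b hb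
            simp only [Prod.mk.injEq] at hab
            obtain ⟨h1, h2⟩ := hab
            rw [hka, hkb, Nat.mul_div_cancel _ hInT.1, Nat.mul_div_cancel _ hInT.1] at h2
            rw [h2] at hka
            apply Prod.ext
            · omega
            · exact h1
        _ ≤ (Finset.Ioc t (32 * t) ×ˢ Finset.range 32).card := by
            apply Finset.card_le_card
            intro x hx
            obtain ⟨p, hp, rfl⟩ := Finset.mem_image.mp hx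
            obtain ⟨h1, h2, k, hk, hk2, -⟩ := hprop p hp
            rw [Finset.mem_product, Finset.mem_Ioc, Finset.mem_range]
            refine ⟨⟨h1, h2⟩, ?_⟩
            simp only
            rw [hk2, Nat.mul_div_cancel _ hInT.1]
            exact hk
        _ = 31 * t * 32 := by
            rw [Finset.card_product, Nat.card_Ioc, Finset.card_range]
            congr 1
            omega
    calc ∑ p ∈ S t, 1 / ((p.2 : ℝ)) ^ 2 ≤ ∑ p ∈ S t, 1 / (t : ℝ) ^ 2 := by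
          apply Finset.sum_le_sum
          intro p hp
          obtain ⟨h1, -⟩ := hprop p hp
          have : (t : ℝ) ≤ p.2 := by exact_mod_cast h1.le
          apply one_div_le_one_div_of_le (by positivity)
          exact pow_le_pow_left₀ (by linarith) this 2
      _ = (S t).card * (1 / (t : ℝ) ^ 2) := by rw [Finset.sum_const, nsmul_eq_mul]
      _ ≤ (1000 * t) * (1 / (t : ℝ) ^ 2) := by
          apply mul_le_mul_of_nonneg_right _ (by positivity)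
          have : ((S t).card : ℝ) ≤ 31 * t * 32 := by exact_mod_cast hcard
          linarith
      _ = 1000 * ((1 : ℝ) / t) := by field_simp
  calc ∑ p ∈ F, 1 / ((p.2 : ℝ)) ^ 2 ≤ ∑ p ∈ T.biUnion S, 1 / ((p.2 : ℝ)) ^ 2 :=
        Finset.sum_le_sum_of_subset_of_nonneg hcover (fun _ _ _ => by positivity)
    _ ≤ ∑ t ∈ T, ∑ p ∈ S t, 1 / ((p.2 : ℝ)) ^ 2 :=
        sum_biUnion_le' T S (fun p => 1 / ((p.2 : ℝ)) ^ 2) (fun _ => by positivity)
    _ ≤ ∑ t ∈ T, 1000 * ((1 : ℝ) / t) := Finset.sum_le_sum hSt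
    _ = 1000 * ∑ t ∈ T, (1 : ℝ) / t := by rw [Finset.mul_sum]
    _ ≤ 1000 * 2 := by
        apply mul_le_mul_of_nonneg_left _ (by norm_num)
        exact sumT T (fun t ht => (Finset.mem_filter.mp ht).2)
    _ = 2000 := by norm_num

/-- The total weight of all admissible ratios is bounded, uniformly in `ψ`. -/
theorem zsum (y₁ y₂ ψ : ℝ) (hψ8 : ψ ≤ 1 / 8) (F : Finset (ℕ × ℕ))
    (hF : ∀ p ∈ F, Cond y₁ y₂ ψ p.1 p.2) :
    ∑ p ∈ F, 1 / ((p.2 : ℝ)) ^ 2 ≤ 2100 := by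
  classical
  rcases F.eq_empty_or_nonempty with he | ⟨p₀, hp₀⟩
  · rw [he]; simp
  have hψ : 0 < ψ := by
    obtain ⟨h1, h2, -, h3, -⟩ := hF p₀ hp₀
    by_contra hcon
    push Not at hcon
    have h4 : 0 ≤ dn y₁ (p₀.2 - p₀.1) := abs_nonneg _
    have h5 : (0 : ℝ) ≤ p₀.2 := by positivity
    nlinarith
  set F₁ := F.filter (fun p => 1 / 8 ≤ 2 * ψ * (p.2 : ℝ)) with hF₁
  set F₂ := F.filter (fun p => ∃ t, WildBy y₁ y₂ (p.2 - p.1) t) with hF₂
  set F₃ := F.filter (fun p => 2 * ψ * (p.2 : ℝ) < 1 / 8 ∧ ∀ t, ¬ WildBy y₁ y₂ (p.2 - p.1) t) with hF₃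
  have hsub : F ⊆ (F₁ ∪ F₂) ∪ F₃ := by
    intro p hp
    by_cases h1 : 1 / 8 ≤ 2 * ψ * (p.2 : ℝ)
    · exact Finset.mem_union_left _ (Finset.mem_union_left _ (Finset.mem_filter.mpr ⟨hp, h1⟩))
    · by_cases h2 : ∃ t, WildBy y₁ y₂ (p.2 - p.1) t
      · exact Finset.mem_union_left _ (Finset.mem_union_right _ (Finset.mem_filter.mpr ⟨hp, h2⟩))
      · push Not at h1 h2
        exact Finset.mem_union_right _ (Finset.mem_filter.mpr ⟨hp, h1, h2⟩)
  have s1 := zsum_alpha ψ hψ hψ8 F₁ (fun p hp => by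
    obtain ⟨h1, h2⟩ := Finset.mem_filter.mp hp
    exact ⟨(hF p h1).2.2.1, h2⟩)
  have s2 := zsum_gamma y₁ y₂ F₂ (fun p hp => by
    obtain ⟨h1, t, ht⟩ := Finset.mem_filter.mp hp
    obtain ⟨a, b, -, -, -, h⟩ := hF p h1
    exact ⟨a, b, t, ht, h t ht⟩)
  have s3 := zsum_beta y₁ y₂ ψ hψ F₃ (fun p hp => by
    obtain ⟨h1, h2, h3⟩ := Finset.mem_filter.mp hp
    obtain ⟨a, b, -, c, d, -⟩ := hF p h1
    exact ⟨a, b, h2, c, d, h3⟩)
  have hnn : ∀ (G : Finset (ℕ × ℕ)), 0 ≤ ∑ p ∈ G, 1 / ((p.2 : ℝ)) ^ 2 := fun G =>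
    Finset.sum_nonneg (fun _ _ => by positivity)
  calc ∑ p ∈ F, 1 / ((p.2 : ℝ)) ^ 2 ≤ ∑ p ∈ (F₁ ∪ F₂) ∪ F₃, 1 / ((p.2 : ℝ)) ^ 2 :=
        Finset.sum_le_sum_of_subset_of_nonneg hsub (fun _ _ _ => by positivity)
    _ ≤ ∑ p ∈ F₁ ∪ F₂, 1 / ((p.2 : ℝ)) ^ 2 + ∑ p ∈ F₃, 1 / ((p.2 : ℝ)) ^ 2 := by
        rw [← Finset.sum_union_inter]
        linarith [hnn ((F₁ ∪ F₂) ∩ F₃)]
    _ ≤ (∑ p ∈ F₁, 1 / ((p.2 : ℝ)) ^ 2 + ∑ p ∈ F₂, 1 / ((p.2 : ℝ)) ^ 2) + ∑ p ∈ F₃, 1 / ((p.2 : ℝ)) ^ 2 := by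
        have := Finset.sum_union_inter (s₁ := F₁) (s₂ := F₂) (f := fun p : ℕ × ℕ => 1 / ((p.2 : ℝ)) ^ 2)
        linarith [hnn (F₁ ∩ F₂)]
    _ ≤ 2100 := by linarith

end Pool.Agent.TH871.K2
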