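import Mathlib
import Pool.Agent.TH871.K2.Zsum

set_option autoImplicit false

open Finset MeasureTheory

namespace Pool.Agent.TH871.K2

/-- centre `(b + y) / q` -/
noncomputable def cen (y₁ y₂ : ℝ) (q : ℕ) (b : ℕ × ℕ) : ℝ × ℝ :=
  (((b.1 : ℝ) + y₁) / q, ((b.2 : ℝ) + y₂) / q)

/-- numerators that are removed -/
def Removed (y₁ y₂ : ℝ) (r : ℕ) (b : ℕ × ℕ) : Prop :=
  ∃ t, InT y₁ y₂ t ∧ ∃ r', r' ∣ r ∧ 32 * t < r' ∧
    (r' : ℤ) ∣ t * b.1 + round ((t : ℝ) * y₁) ∧ (r' : ℤ) ∣ t * b.2 + round ((t : ℝ) * y₂)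

open Classical in
/-- numerators that are kept -/
noncomputable def A (y₁ y₂ : ℝ) (r : ℕ) : Finset (ℕ × ℕ) :=
  (Finset.range r ×ˢ Finset.range r).filter (fun b => ¬ Removed y₁ y₂ r b)

theorem card_int_le {a b : ℝ} (hab : a ≤ b) : ((Finset.Icc ⌈a⌉ ⌊b⌋).card : ℝ) ≤ b - a + 1 := by
  rw [Int.card_Icc]
  rcases le_or_gt 0 (⌊b⌋ + 1 - ⌈a⌉) with h | h
  · have h1 : (((⌊b⌋ + 1 - ⌈a⌉).toNat : ℤ) : ℝ) = ((⌊b⌋ + 1 - ⌈a⌉ : ℤ) : ℝ) := by
      rw [Int.toNat_of_nonneg h]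
    have h2 : (((⌊b⌋ + 1 - ⌈a⌉).toNat : ℕ) : ℝ) = ((⌊b⌋ + 1 - ⌈a⌉ : ℤ) : ℝ) := by
      rw [← h1]; norm_cast
    rw [h2]
    push_cast
    have := Int.floor_le b
    have := Int.le_ceil a
    linarith
  · rw [Int.toNat_of_nonpos h.le]
    simp
    linarith

theorem close_iff {y a b ψq ψr : ℝ} {g q' r' : ℕ} (hg : 1 ≤ g) (hq : 1 ≤ q') (hr : 1 ≤ r')
    (h : |(a + y) / ((g * q' : ℕ) : ℝ) - (b + y) / ((g * r' : ℕ) : ℝ)| <
      ψq / ((g * q' : ℕ) : ℝ) + ψr / ((g * r' : ℕ) : ℝ)) :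
    |(r' * a - q' * b) + ((r' : ℝ) - q') * y| < r' * ψq + q' * ψr := by
  have hg' : (0 : ℝ) < g := by exact_mod_cast hg
  have hq' : (0 : ℝ) < q' := by exact_mod_cast hq
  have hr' : (0 : ℝ) < r' := by exact_mod_cast hr
  push_cast at h
  have hpos : (0 : ℝ) < g * q' * r' := by positivity
  have e1 : (a + y) / (g * q' : ℝ) - (b + y) / (g * r') =
      ((r' * a - q' * b) + ((r' : ℝ) - q') * y) / (g * q' * r') := by
    field_simp; ring
  have e2 : ψq / (g * q' : ℝ) + ψr / (g * r') = (r' * ψq + q' * ψr) / (g * q' * r') := by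
    field_simp
  rw [e1, e2, abs_div, abs_of_pos hpos, div_lt_div_iff_of_pos_right hpos] at h
  exact h

open Classical in
theorem count1 {y ψq ψr : ℝ} {g q' r' : ℕ} (hg : 1 ≤ g) (hq : 1 ≤ q') (hr : 1 ≤ r')
    (hcop : Nat.Coprime q' r') (hψq : 0 ≤ ψq) (hψr : 0 ≤ ψr) :
    ((((Finset.range (g * q') ×ˢ Finset.range (g * r')).filter (fun p =>
      |((p.1 : ℝ) + y) / ((g * q' : ℕ) : ℝ) - ((p.2 : ℝ) + y) / ((g * r' : ℕ) : ℝ)| <
      ψq / ((g * q' : ℕ) : ℝ) + ψr / ((g * r' : ℕ) : ℝ))).card : ℕ) : ℝ) ≤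
      g * (2 * (r' * ψq + q' * ψr) + 1) := by
  set η : ℝ := r' * ψq + q' * ψr with hη
  have hη0 : 0 ≤ η := by positivity
  set x : ℝ := ((r' : ℝ) - q') * y with hx
  set S := (Finset.range (g * q') ×ˢ Finset.range (g * r')).filter (fun p =>
      |((p.1 : ℝ) + y) / ((g * q' : ℕ) : ℝ) - ((p.2 : ℝ) + y) / ((g * r' : ℕ) : ℝ)| <
      ψq / ((g * q' : ℕ) : ℝ) + ψr / ((g * r' : ℕ) : ℝ)) with hS
  have hcard : S.card ≤ (Finset.Icc ⌈-η - x⌉ ⌊η - x⌋ ×ˢ Finset.range g).card := by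
    apply Finset.card_le_card_of_injOn (fun p => ((r' : ℤ) * p.1 - (q' : ℤ) * p.2, p.1 / q'))
    · intro p hp
      rw [Finset.mem_coe, hS, Finset.mem_filter, Finset.mem_product, Finset.mem_range,
        Finset.mem_range] at hp
      obtain ⟨⟨h1, h2⟩, h3⟩ := hp
      have h4 := close_iff hg hq hr h3
      rw [abs_lt] at h4
      rw [Finset.mem_coe, Finset.mem_product, Finset.mem_Icc, Finset.mem_range]
      refine ⟨⟨?_, ?_⟩, ?_⟩
      · rw [Int.ceil_le]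
        push_cast
        linarith [h4.1]
      · rw [Int.le_floor]
        push_cast
        linarith [h4.2]
      · exact Nat.div_lt_of_lt_mul (by rw [mul_comm]; exact h1)
    · intro p hp p₂ hp₂ heq
      simp only [Prod.mk.injEq] at heq
      obtain ⟨h1, h2⟩ := heq
      have h3 : (r' : ℤ) * ((p.1 : ℤ) - p₂.1) = (q' : ℤ) * ((p.2 : ℤ) - p₂.2) := by
        linear_combination h1
      have h4 : (q' : ℤ) ∣ (p.1 : ℤ) - p₂.1 := by
        have : (q' : ℤ) ∣ (r' : ℤ) * ((p.1 : ℤ) - p₂.1) := ⟨_, h3⟩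
        exact (Nat.isCoprime_iff_coprime.mpr hcop).dvd_of_dvd_mul_left this
      have h5 : p.1 = p₂.1 := by
        have hm : p.1 % q' = p₂.1 % q' := by
          have := (Int.emod_emod_of_dvd (p.1 : ℤ) (dvd_refl (q' : ℤ)))
          have h6 : (p₂.1 : ℤ) ≡ p.1 [ZMOD q'] := Int.modEq_iff_dvd.mpr h4
          have h7 : p₂.1 ≡ p.1 [MOD q'] := (Int.natCast_modEq_iff).mp h6
          exact h7.symm
        rw [← Nat.div_add_mod p.1 q', ← Nat.div_add_mod p₂.1 q', h2, hm]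
      have h6 : p.2 = p₂.2 := by
        rw [h5, sub_self, mul_zero] at h3
        have hq0 : (q' : ℤ) ≠ 0 := by omega
        have := (mul_eq_zero.mp h3.symm).resolve_left hq0
        omega
      exact Prod.ext h5 h6
  rw [Finset.card_product, Finset.card_range] at hcard
  have h1 : ((Finset.Icc ⌈-η - x⌉ ⌊η - x⌋).card : ℝ) ≤ 2 * η + 1 := by
    have := card_int_le (a := -η - x) (b := η - x) (by linarith)
    linarith
  calc (S.card : ℝ) ≤ (((Finset.Icc ⌈-η - x⌉ ⌊η - x⌋).card * g : ℕ) : ℝ) := by exact_mod_cast hcard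
    _ = ((Finset.Icc ⌈-η - x⌉ ⌊η - x⌋).card : ℝ) * g := by push_cast; ring
    _ ≤ (2 * η + 1) * g := mul_le_mul_of_nonneg_right h1 (by positivity)
    _ = g * (2 * η + 1) := by ring

/-- the close pairs -/
def Close (y₁ y₂ ψq ψr : ℝ) (q r : ℕ) (a b : ℕ × ℕ) : Prop :=
  |((a.1 : ℝ) + y₁) / (q : ℝ) - ((b.1 : ℝ) + y₁) / (r : ℝ)| < ψq / (q : ℝ) + ψr / (r : ℝ) ∧
  |((a.2 : ℝ) + y₂) / (q : ℝ) - ((b.2 : ℝ) + y₂) / (r : ℝ)| < ψq / (q : ℝ) + ψr / (r : ℝ)

open Classical in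
theorem count2 {y₁ y₂ ψq ψr : ℝ} {g q' r' : ℕ} (hg : 1 ≤ g) (hq : 1 ≤ q') (hr : 1 ≤ r')
    (hcop : Nat.Coprime q' r') (hψq : 0 ≤ ψq) (hψr : 0 ≤ ψr) :
    (((A y₁ y₂ (g * q') ×ˢ A y₁ y₂ (g * r')).filter (fun p =>
      Close y₁ y₂ ψq ψr (g * q') (g * r') p.1 p.2)).card : ℝ) ≤
      (g * (2 * (r' * ψq + q' * ψr) + 1)) ^ 2 := by
  set S : ℝ → Finset (ℕ × ℕ) := fun y => (Finset.range (g * q') ×ˢ Finset.range (g * r')).filter (fun p =>
      |((p.1 : ℝ) + y) / ((g * q' : ℕ) : ℝ) - ((p.2 : ℝ) + y) / ((g * r' : ℕ) : ℝ)| <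
      ψq / ((g * q' : ℕ) : ℝ) + ψr / ((g * r' : ℕ) : ℝ)) with hS
  have h : ((A y₁ y₂ (g * q') ×ˢ A y₁ y₂ (g * r')).filter (fun p =>
      Close y₁ y₂ ψq ψr (g * q') (g * r') p.1 p.2)).card ≤ (S y₁ ×ˢ S y₂).card := by
    apply Finset.card_le_card_of_injOn (fun p => ((p.1.1, p.2.1), (p.1.2, p.2.2)))
    · intro p hp
      rw [Finset.mem_coe, Finset.mem_filter, Finset.mem_product] at hp
      obtain ⟨⟨h1, h2⟩, h3, h4⟩ := hp
      have h5 := (Finset.mem_filter.mp h1).1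
      have h6 := (Finset.mem_filter.mp h2).1
      rw [Finset.mem_product] at h5 h6
      rw [Finset.mem_coe, Finset.mem_product]
      refine ⟨?_, ?_⟩
      · rw [hS]
        exact Finset.mem_filter.mpr ⟨Finset.mem_product.mpr ⟨h5.1, h6.1⟩, h3⟩
      · rw [hS]
        exact Finset.mem_filter.mpr ⟨Finset.mem_product.mpr ⟨h5.2, h6.2⟩, h4⟩
    · intro p _ p₂ _ heq
      simp only [Prod.mk.injEq] at heq
      obtain ⟨⟨a, b⟩, c, d⟩ := heq
      exact Prod.ext (Prod.ext a c) (Prod.ext b d)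
  rw [Finset.card_product] at h
  have c1 := count1 (y := y₁) hg hq hr hcop hψq hψr
  have c2 := count1 (y := y₂) hg hq hr hcop hψq hψr
  calc _ ≤ (((S y₁).card * (S y₂).card : ℕ) : ℝ) := by exact_mod_cast h
    _ = ((S y₁).card : ℝ) * ((S y₂).card : ℝ) := by push_cast; ring
    _ ≤ (g * (2 * (r' * ψq + q' * ψr) + 1)) * (g * (2 * (r' * ψq + q' * ψr) + 1)) :=
        mul_le_mul c1 c2 (by positivity) (by positivity)
    _ = _ := by ring

/-- If two kept numerators with `η < 1/8` are close, the ratio satisfies `Cond`. -/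
theorem cond_of_close {y₁ y₂ ψq ψr : ℝ} {g q' r' : ℕ} (hg : 1 ≤ g) (hq : 1 ≤ q') (hqr : q' < r')
    (hcop : Nat.Coprime q' r') (hψq : 0 ≤ ψq) (hψr : 0 ≤ ψr)
    (hη : r' * ψq + q' * ψr < 1 / 8) {a b : ℕ × ℕ} (hb : b ∈ A y₁ y₂ (g * r'))
    (hcl : Close y₁ y₂ ψq ψr (g * q') (g * r') a b) :
    Cond y₁ y₂ (max ψq ψr) q' r' := by
  classical
  have hr : 1 ≤ r' := by omega
  set n := r' - q' with hn
  have hq0 : (0 : ℝ) < q' := by exact_mod_cast hq
  have hr0 : (0 : ℝ) < r' := by exact_mod_cast hr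
  have hqr' : (q' : ℝ) < r' := by exact_mod_cast hqr
  have hnr : (n : ℝ) = r' - q' := by rw [hn, Nat.cast_sub hqr.le]
  set η : ℝ := r' * ψq + q' * ψr with hηdef
  have hη2 : η ≤ 2 * max ψq ψr * r' := by
    have h1 : r' * ψq ≤ max ψq ψr * r' := by
      rw [mul_comm]; exact mul_le_mul_of_nonneg_right (le_max_left _ _) hr0.le
    have h2 : q' * ψr ≤ max ψq ψr * r' := by
      rw [mul_comm]; exact mul_le_mul (le_max_right _ _) hqr'.le hq0.le (le_max_of_le_left hψq)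
    linarith
  -- rounding
  have hround : ∀ (y : ℝ) (a b : ℕ), |((r' : ℝ) * a - q' * b) + ((r' : ℝ) - q') * y| < η →
      round ((n : ℝ) * y) = (q' : ℤ) * b - r' * a ∧ dn y n < η := by
    intro y a b h
    have h1 : |(n : ℝ) * y - (((q' : ℤ) * b - r' * a : ℤ) : ℝ)| < η := by
      rw [hnr]
      push_cast
      have e : ((r' : ℝ) - q') * y - (q' * b - r' * a) = ((r' : ℝ) * a - q' * b) + ((r' : ℝ) - q') * y := by ring
      rw [e]
      exact h
    have h2 : dn y n < η := (dn_le y n _).trans_lt h1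
    refine ⟨?_, h2⟩
    apply int_eq_of_abs_lt_one
    unfold dn at h2
    have e : ((round ((n : ℝ) * y) : ℤ) : ℝ) - (((q' : ℤ) * b - r' * a : ℤ) : ℝ) =
      ((n : ℝ) * y - (((q' : ℤ) * b - r' * a : ℤ) : ℝ)) - ((n : ℝ) * y - round ((n : ℝ) * y)) := by ring
    rw [e]
    calc _ ≤ |(n : ℝ) * y - (((q' : ℤ) * b - r' * a : ℤ) : ℝ)| + |(n : ℝ) * y - round ((n : ℝ) * y)| := abs_sub _ _
      _ < 1 := by linarith
  have c1 := close_iff hg hq hr hcl.1
  have c2 := close_iff hg hq hr hcl.2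
  obtain ⟨r1, d1⟩ := hround y₁ a.1 b.1 c1
  obtain ⟨r2, d2⟩ := hround y₂ a.2 b.2 c2
  refine ⟨hq, hqr, ?_, by linarith, by linarith, ?_⟩
  · rcases le_total ψq ψr with h | h
    · rw [max_eq_right h]
      have : 0 ≤ (r' : ℝ) * ψq := by positivity
      nlinarith
    · rw [max_eq_left h]
      have h3 : 0 ≤ (q' : ℝ) * ψr := by positivity
      have h4 : ψq * q' ≤ ψq * r' := mul_le_mul_of_nonneg_left hqr'.le hψq
      nlinarith
  · intro t ht
    by_contra hcon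
    push Not at hcon
    apply (Finset.mem_filter.mp hb).2
    obtain ⟨hInT, k, hk, hk1, hk2⟩ := ht
    refine ⟨t, hInT, r', Dvd.intro_left g rfl, hcon, ?_, ?_⟩
    · -- r' ∣ k * (t b + s), gcd (k, r') = 1
      have hnk : (k : ℤ) * t = n := by rw [hn, hk]; push_cast; ring
      have hcopk : IsCoprime (r' : ℤ) (k : ℤ) := by
        have h1 : IsCoprime (r' : ℤ) (q' : ℤ) := (Nat.isCoprime_iff_coprime.mpr hcop).symm
        have h2 : IsCoprime (r' : ℤ) (n : ℤ) := by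
          have e : (n : ℤ) = -(q' : ℤ) + r' * 1 := by rw [hn]; push_cast [Nat.cast_sub hqr.le]; ring
          rw [e]
          exact (IsCoprime.add_mul_left_right_iff).mpr h1.neg_right
        rw [← hnk] at h2
        exact h2.of_mul_right_left
      apply hcopk.dvd_of_dvd_mul_left
      refine ⟨(b.1 : ℤ) - a.1, ?_⟩
      have e2 : (n : ℤ) = r' - q' := by rw [hn]; push_cast [Nat.cast_sub hqr.le]; ring
      have e1 : (k : ℤ) * (t * b.1 + round ((t : ℝ) * y₁)) = n * b.1 + round ((n : ℝ) * y₁) := by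
        rw [hk1, ← hnk]; ring
      rw [e1, r1, e2]
      ring
    · have hnk : (k : ℤ) * t = n := by rw [hn, hk]; push_cast; ring
      have hcopk : IsCoprime (r' : ℤ) (k : ℤ) := by
        have h1 : IsCoprime (r' : ℤ) (q' : ℤ) := (Nat.isCoprime_iff_coprime.mpr hcop).symm
        have h2 : IsCoprime (r' : ℤ) (n : ℤ) := by
          have e : (n : ℤ) = -(q' : ℤ) + r' * 1 := by rw [hn]; push_cast [Nat.cast_sub hqr.le]; ring
          rw [e]
          exact (IsCoprime.add_mul_left_right_iff).mpr h1.neg_right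
        rw [← hnk] at h2
        exact h2.of_mul_right_left
      apply hcopk.dvd_of_dvd_mul_left
      refine ⟨(b.2 : ℤ) - a.2, ?_⟩
      have e2 : (n : ℤ) = r' - q' := by rw [hn]; push_cast [Nat.cast_sub hqr.le]; ring
      have e1 : (k : ℤ) * (t * b.2 + round ((t : ℝ) * y₂)) = n * b.2 + round ((n : ℝ) * y₂) := by
        rw [hk2, ← hnk]; ring
      rw [e1, r2, e2]
      ring

end Pool.Agent.TH871.K2
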