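import Mathlib
import Pool.Agent.TH871.K2.Pairs

set_option autoImplicit false

open Finset MeasureTheory

namespace Pool.Agent.TH871.K2

theorem vol_ball (c : ℝ × ℝ) {δ : ℝ} (hδ : 0 ≤ δ) : volume.real (Metric.ball c δ) = (2 * δ) ^ 2 := by
  obtain ⟨x, y⟩ := c
  rw [← ball_prod_same, Measure.volume_eq_prod, Measure.real, Measure.prod_prod, Real.volume_ball,
    Real.volume_ball, ENNReal.toReal_mul, ENNReal.toReal_ofReal (by positivity)]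
  ring

theorem vol_ball_ne_top (c : ℝ × ℝ) (δ : ℝ) : volume (Metric.ball c δ) ≠ ⊤ := by
  obtain ⟨x, y⟩ := c
  rw [← ball_prod_same, Measure.volume_eq_prod, Measure.prod_prod, Real.volume_ball,
    Real.volume_ball]
  exact ENNReal.mul_ne_top ENNReal.ofReal_ne_top ENNReal.ofReal_ne_top

theorem ball_inter_le (c c' : ℝ × ℝ) {δ δ' : ℝ} (hδ : 0 ≤ δ) (hδ' : 0 ≤ δ') :
    volume.real (Metric.ball c δ ∩ Metric.ball c' δ') ≤ (2 * min δ δ') ^ 2 := by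
  rcases min_choice δ δ' with h | h
  · rw [h, ← vol_ball c hδ]
    exact measureReal_mono Set.inter_subset_left (vol_ball_ne_top _ _)
  · rw [h, ← vol_ball c' hδ']
    exact measureReal_mono Set.inter_subset_right (vol_ball_ne_top _ _)

theorem close_of_inter {y₁ y₂ ψq ψr : ℝ} {q r : ℕ} {a b : ℕ × ℕ}
    (h : (Metric.ball (cen y₁ y₂ q a) (ψq / q) ∩ Metric.ball (cen y₁ y₂ r b) (ψr / r)).Nonempty) :
    Close y₁ y₂ ψq ψr q r a b := by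
  obtain ⟨x, h1, h2⟩ := h
  rw [Metric.mem_ball, Prod.dist_eq, max_lt_iff, Real.dist_eq, Real.dist_eq] at h1 h2
  unfold cen at h1 h2
  simp only at h1 h2
  constructor
  · calc |((a.1 : ℝ) + y₁) / (q : ℝ) - ((b.1 : ℝ) + y₁) / (r : ℝ)|
        = |(x.1 - ((b.1 : ℝ) + y₁) / (r : ℝ)) - (x.1 - ((a.1 : ℝ) + y₁) / (q : ℝ))| := by ring_nf
      _ ≤ |x.1 - ((b.1 : ℝ) + y₁) / (r : ℝ)| + |x.1 - ((a.1 : ℝ) + y₁) / (q : ℝ)| := abs_sub _ _
      _ < _ := by linarith [h1.1, h2.1]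
  · calc |((a.2 : ℝ) + y₂) / (q : ℝ) - ((b.2 : ℝ) + y₂) / (r : ℝ)|
        = |(x.2 - ((b.2 : ℝ) + y₂) / (r : ℝ)) - (x.2 - ((a.2 : ℝ) + y₂) / (q : ℝ))| := by ring_nf
      _ ≤ |x.2 - ((b.2 : ℝ) + y₂) / (r : ℝ)| + |x.2 - ((a.2 : ℝ) + y₂) / (q : ℝ)| := abs_sub _ _
      _ < _ := by linarith [h1.2, h2.2]

/-- total overlap of the families for `q` and `r` -/
noncomputable def ovl (y₁ y₂ : ℝ) (ψ : ℕ → ℝ) (q r : ℕ) : ℝ :=
  ∑ a ∈ A y₁ y₂ q, ∑ b ∈ A y₁ y₂ r,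
    volume.real (Metric.ball (cen y₁ y₂ q a) (ψ q / q) ∩ Metric.ball (cen y₁ y₂ r b) (ψ r / r))

theorem ovl_symm (y₁ y₂ : ℝ) (ψ : ℕ → ℝ) (q r : ℕ) : ovl y₁ y₂ ψ q r = ovl y₁ y₂ ψ r q := by
  unfold ovl
  rw [Finset.sum_comm]
  refine Finset.sum_congr rfl (fun b _ => Finset.sum_congr rfl (fun a _ => ?_))
  rw [Set.inter_comm]

open Classical in
theorem ovl_le_card (y₁ y₂ : ℝ) (ψ : ℕ → ℝ) (hψ : ∀ q, 0 ≤ ψ q) (q r : ℕ) :
    ovl y₁ y₂ ψ q r ≤ ((((A y₁ y₂ q ×ˢ A y₁ y₂ r).filter (fun p =>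
      Close y₁ y₂ (ψ q) (ψ r) q r p.1 p.2)).card : ℕ) : ℝ) * (2 * min (ψ q / q) (ψ r / r)) ^ 2 := by
  unfold ovl
  rw [← Finset.sum_product']
  rw [← Finset.sum_filter_add_sum_filter_not (A y₁ y₂ q ×ˢ A y₁ y₂ r)
    (fun p => Close y₁ y₂ (ψ q) (ψ r) q r p.1 p.2)]
  have h2 : ∑ p ∈ (A y₁ y₂ q ×ˢ A y₁ y₂ r).filter (fun p => ¬ Close y₁ y₂ (ψ q) (ψ r) q r p.1 p.2),
      volume.real (Metric.ball (cen y₁ y₂ q p.1) (ψ q / q) ∩ Metric.ball (cen y₁ y₂ r p.2) (ψ r / r)) = 0 := by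
    apply Finset.sum_eq_zero
    intro p hp
    have hp2 := (Finset.mem_filter.mp hp).2
    have : Metric.ball (cen y₁ y₂ q p.1) (ψ q / q) ∩ Metric.ball (cen y₁ y₂ r p.2) (ψ r / r) = ∅ := by
      by_contra hne
      exact hp2 (close_of_inter (Set.nonempty_iff_ne_empty.mpr hne))
    rw [this, measureReal_empty]
  rw [h2, add_zero, ← nsmul_eq_mul]
  apply Finset.sum_le_card_nsmul
  intro p _
  exact ball_inter_le _ _ (div_nonneg (hψ q) (by positivity)) (div_nonneg (hψ r) (by positivity))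

theorem ovl_eq_zero_of_no_close (y₁ y₂ : ℝ) (ψ : ℕ → ℝ) (q r : ℕ)
    (h : ∀ a ∈ A y₁ y₂ q, ∀ b ∈ A y₁ y₂ r, ¬ Close y₁ y₂ (ψ q) (ψ r) q r a b) :
    ovl y₁ y₂ ψ q r = 0 := by
  unfold ovl
  apply Finset.sum_eq_zero
  intro a ha
  apply Finset.sum_eq_zero
  intro b hb
  have : Metric.ball (cen y₁ y₂ q a) (ψ q / q) ∩ Metric.ball (cen y₁ y₂ r b) (ψ r / r) = ∅ := by
    by_contra hne
    exact h a ha b hb (close_of_inter (Set.nonempty_iff_ne_empty.mpr hne))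
  rw [this, measureReal_empty]

theorem ovl_le (y₁ y₂ : ℝ) (ψ : ℕ → ℝ) (hψ : ∀ q, 0 ≤ ψ q) {g q' r' : ℕ} (hg : 1 ≤ g)
    (hq : 1 ≤ q') (hr : 1 ≤ r') (hcop : Nat.Coprime q' r') :
    ovl y₁ y₂ ψ (g * q') (g * r') ≤
      (g * (2 * (r' * ψ (g * q') + q' * ψ (g * r')) + 1)) ^ 2 *
        (2 * min (ψ (g * q') / ((g * q' : ℕ) : ℝ)) (ψ (g * r') / ((g * r' : ℕ) : ℝ))) ^ 2 := by
  refine (ovl_le_card y₁ y₂ ψ hψ _ _).trans ?_
  apply mul_le_mul_of_nonneg_right _ (by positivity)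
  exact count2 hg hq hr hcop (hψ _) (hψ _)

theorem ovl_diag (y₁ y₂ : ℝ) (ψ : ℕ → ℝ) (hψ : ∀ q, 0 ≤ ψ q) (hψ8 : ∀ q, ψ q ≤ 1 / 8) {q : ℕ}
    (hq : 1 ≤ q) : ovl y₁ y₂ ψ q q ≤ 9 * ψ q ^ 2 := by
  have h := ovl_le y₁ y₂ ψ hψ (g := q) (q' := 1) (r' := 1) hq le_rfl le_rfl (by norm_num)
  rw [mul_one, min_self] at h
  have hq0 : (0 : ℝ) < q := by exact_mod_cast hq
  refine h.trans ?_
  have h1 := hψ8 q
  have h2 := hψ q
  have e : ((q : ℝ) * (2 * (((1 : ℕ) : ℝ) * ψ q + ((1 : ℕ) : ℝ) * ψ q) + 1)) ^ 2 * (2 * (ψ q / q)) ^ 2 =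
      (2 * (4 * ψ q + 1)) ^ 2 * ψ q ^ 2 := by
    field_simp; push_cast; ring
  rw [e]
  apply mul_le_mul_of_nonneg_right _ (by positivity)
  nlinarith

open Classical in
/-- weight of the pair -/
noncomputable def W (y₁ y₂ : ℝ) (ψ : ℕ → ℝ) (q r : ℕ) : ℝ :=
  if q < r ∧ Cond y₁ y₂ (max (ψ q) (ψ r)) (q / Nat.gcd q r) (r / Nat.gcd q r) then
    (max (ψ q) (ψ r)) ^ 2 * (1 / ((r / Nat.gcd q r : ℕ) : ℝ) ^ 2) else 0

theorem W_nonneg (y₁ y₂ : ℝ) (ψ : ℕ → ℝ) (q r : ℕ) : 0 ≤ W y₁ y₂ ψ q r := by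
  unfold W
  split_ifs
  · positivity
  · exact le_rfl

theorem ovl_lt (y₁ y₂ : ℝ) (ψ : ℕ → ℝ) (hψ : ∀ q, 0 ≤ ψ q) {q r : ℕ}
    (hq : 1 ≤ q) (hqr : q < r) :
    ovl y₁ y₂ ψ q r ≤ 1600 * ψ q ^ 2 * ψ r ^ 2 + 7 * W y₁ y₂ ψ q r := by
  set g := Nat.gcd q r with hg
  have hg1 : 1 ≤ g := Nat.gcd_pos_of_pos_left _ hq
  obtain ⟨q', hq'⟩ : g ∣ q := Nat.gcd_dvd_left _ _
  obtain ⟨r', hr'⟩ : g ∣ r := Nat.gcd_dvd_right _ _
  have hq'1 : 1 ≤ q' := by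
    rcases Nat.eq_zero_or_pos q' with h | h
    · rw [h, mul_zero] at hq'; omega
    · exact h
  have hqr' : q' < r' := by
    rw [hq', hr'] at hqr
    exact Nat.lt_of_mul_lt_mul_left hqr
  have hr'1 : 1 ≤ r' := by omega
  have hdq : q / g = q' := by rw [hq']; exact Nat.mul_div_cancel_left _ hg1
  have hdr : r / g = r' := by rw [hr']; exact Nat.mul_div_cancel_left _ hg1
  have hcop : Nat.Coprime q' r' := by
    rw [← hdq, ← hdr]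
    exact Nat.coprime_div_gcd_div_gcd hg1
  have hW0 := W_nonneg y₁ y₂ ψ q r
  have hpos : 0 ≤ 1600 * ψ q ^ 2 * ψ r ^ 2 := by positivity
  by_cases hno : ∀ a ∈ A y₁ y₂ q, ∀ b ∈ A y₁ y₂ r, ¬ Close y₁ y₂ (ψ q) (ψ r) q r a b
  · rw [ovl_eq_zero_of_no_close y₁ y₂ ψ q r hno]
    linarith
  have hbase := ovl_le y₁ y₂ ψ hψ hg1 hq'1 hr'1 hcop
  rw [← hq', ← hr'] at hbase
  set η : ℝ := r' * ψ q + q' * ψ r with hη
  have hη0 : 0 ≤ η := add_nonneg (mul_nonneg (by positivity) (hψ q)) (mul_nonneg (by positivity) (hψ r))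
  have hg0 : (0 : ℝ) < g := by exact_mod_cast hg1
  have hq0 : (0 : ℝ) < q' := by exact_mod_cast hq'1
  have hr0 : (0 : ℝ) < r' := by exact_mod_cast hr'1
  have hqc : (q : ℝ) = g * q' := by rw [hq']; push_cast; ring
  have hrc : (r : ℝ) = g * r' := by rw [hr']; push_cast; ring
  set m : ℝ := min (ψ q / q) (ψ r / r) with hm
  have hm0 : 0 ≤ m := le_min (div_nonneg (hψ q) (by positivity)) (div_nonneg (hψ r) (by positivity))
  rcases le_or_gt (1 / 8) η with h8 | h8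
  · -- quasi-independent regime
    have h1 : g * (2 * η + 1) ≤ 10 * (g * η) := by nlinarith
    have h2 : (g * η) * m ≤ 2 * (ψ q * ψ r) := by
      have e : (g : ℝ) * η = (q * r) * (ψ q / q + ψ r / r) := by
        rw [hη, hqc, hrc]; field_simp
      have hmul : (ψ q / q + ψ r / r) * m ≤ 2 * ((ψ q / q) * (ψ r / r)) := by
        have m1 : m ≤ ψ q / q := min_le_left _ _
        have m2 : m ≤ ψ r / r := min_le_right _ _
        have a1 : 0 ≤ ψ q / q := div_nonneg (hψ q) (by positivity)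
        have a2 : 0 ≤ ψ r / r := div_nonneg (hψ r) (by positivity)
        nlinarith [mul_le_mul_of_nonneg_left m2 a1, mul_le_mul_of_nonneg_left m1 a2]
      calc (g * η) * m = (q * r) * ((ψ q / q + ψ r / r) * m) := by rw [e]; ring
        _ ≤ (q * r) * (2 * ((ψ q / q) * (ψ r / r))) := mul_le_mul_of_nonneg_left hmul (by positivity)
        _ = 2 * (ψ q * ψ r) := by rw [hqc, hrc]; field_simp
    have h3 : (g * (2 * η + 1)) * (2 * m) ≤ 40 * (ψ q * ψ r) := by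
      calc (g * (2 * η + 1)) * (2 * m) ≤ (10 * (g * η)) * (2 * m) :=
            mul_le_mul_of_nonneg_right h1 (by positivity)
        _ = 20 * ((g * η) * m) := by ring
        _ ≤ 20 * (2 * (ψ q * ψ r)) := mul_le_mul_of_nonneg_left h2 (by norm_num)
        _ = _ := by ring
    have h4 : 0 ≤ (g * (2 * η + 1)) * (2 * m) := by positivity
    calc ovl y₁ y₂ ψ q r ≤ (g * (2 * η + 1)) ^ 2 * (2 * m) ^ 2 := hbase
      _ = ((g * (2 * η + 1)) * (2 * m)) ^ 2 := by ring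
      _ ≤ (40 * (ψ q * ψ r)) ^ 2 := pow_le_pow_left₀ h4 h3 2
      _ = 1600 * ψ q ^ 2 * ψ r ^ 2 := by ring
      _ ≤ _ := by linarith
  · -- arithmetic regime
    push Not at hno
    obtain ⟨a, ha, b, hb, hcl⟩ := hno
    have hcond : Cond y₁ y₂ (max (ψ q) (ψ r)) q' r' := by
      rw [hr'] at hb
      have hcl' : Close y₁ y₂ (ψ q) (ψ r) (g * q') (g * r') a b := by rw [← hq', ← hr']; exact hcl
      exact cond_of_close hg1 hq'1 hqr' hcop (hψ q) (hψ r) h8 hb hcl'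
    have hWeq : W y₁ y₂ ψ q r = (max (ψ q) (ψ r)) ^ 2 * (1 / (r' : ℝ) ^ 2) := by
      unfold W
      rw [← hg, hdq, hdr, if_pos ⟨hqr, hcond⟩]
    have h1 : (g : ℝ) * m ≤ max (ψ q) (ψ r) / r' := by
      calc (g : ℝ) * m ≤ g * (ψ r / r) := mul_le_mul_of_nonneg_left (min_le_right _ _) hg0.le
        _ = ψ r / r' := by rw [hrc]; field_simp
        _ ≤ max (ψ q) (ψ r) / r' := div_le_div_of_nonneg_right (le_max_right _ _) hr0.le
    have h2 : (g * (2 * η + 1)) * (2 * m) ≤ (5 / 2) * (max (ψ q) (ψ r) / r') := by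
      calc (g * (2 * η + 1)) * (2 * m) = (2 * (2 * η + 1)) * (g * m) := by ring
        _ ≤ (5 / 2) * (g * m) := mul_le_mul_of_nonneg_right (by linarith) (by positivity)
        _ ≤ _ := mul_le_mul_of_nonneg_left h1 (by norm_num)
    have h4 : 0 ≤ (g * (2 * η + 1)) * (2 * m) := by positivity
    calc ovl y₁ y₂ ψ q r ≤ (g * (2 * η + 1)) ^ 2 * (2 * m) ^ 2 := hbase
      _ = ((g * (2 * η + 1)) * (2 * m)) ^ 2 := by ring
      _ ≤ ((5 / 2) * (max (ψ q) (ψ r) / r')) ^ 2 := pow_le_pow_left₀ h4 h2 2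
      _ = (25 / 4) * W y₁ y₂ ψ q r := by rw [hWeq]; ring
      _ ≤ _ := by linarith

/-- sum of the weights of all pairs -/
theorem sumW (y₁ y₂ : ℝ) (ψ : ℕ → ℝ) (hψ8 : ∀ q, ψ q ≤ 1 / 8) (S : Finset ℕ)
    (hS : ∀ q ∈ S, 1 ≤ q) :
    ∑ q ∈ S, ∑ r ∈ S, W y₁ y₂ ψ q r ≤ 4200 * ∑ q ∈ S, ψ q ^ 2 := by
  classical
  set W1 : ℕ → ℕ → ℝ := fun q r =>
    if q < r ∧ Cond y₁ y₂ (ψ r) (q / Nat.gcd q r) (r / Nat.gcd q r) then
      ψ r ^ 2 * (1 / ((r / Nat.gcd q r : ℕ) : ℝ) ^ 2) else 0 with hW1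
  set W2 : ℕ → ℕ → ℝ := fun q r =>
    if q < r ∧ Cond y₁ y₂ (ψ q) (q / Nat.gcd q r) (r / Nat.gcd q r) then
      ψ q ^ 2 * (1 / ((r / Nat.gcd q r : ℕ) : ℝ) ^ 2) else 0 with hW2
  have hW1n : ∀ q r, 0 ≤ W1 q r := fun q r => by
    simp only [hW1]; split_ifs <;> positivity
  have hW2n : ∀ q r, 0 ≤ W2 q r := fun q r => by
    simp only [hW2]; split_ifs <;> positivity
  have hle : ∀ q r, W y₁ y₂ ψ q r ≤ W1 q r + W2 q r := by
    intro q r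
    rcases le_total (ψ q) (ψ r) with h | h
    · have : W y₁ y₂ ψ q r = W1 q r := by
        unfold W
        simp only [hW1, max_eq_right h]
      rw [this]
      linarith [hW2n q r]
    · have : W y₁ y₂ ψ q r = W2 q r := by
        unfold W
        simp only [hW2, max_eq_left h]
      rw [this]
      linarith [hW1n q r]
  have hgcdl : ∀ q r : ℕ, 1 ≤ q → 1 ≤ Nat.gcd q r := fun q r h => Nat.gcd_pos_of_pos_left _ h
  have s1 : ∀ r ∈ S, ∑ q ∈ S, W1 q r ≤ 2100 * ψ r ^ 2 := by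
    intro r hr
    have hr1 := hS r hr
    set S' := S.filter (fun q => q < r ∧ Cond y₁ y₂ (ψ r) (q / Nat.gcd q r) (r / Nat.gcd q r)) with hS'
    have e1 : ∑ q ∈ S, W1 q r = ψ r ^ 2 * ∑ q ∈ S', 1 / ((r / Nat.gcd q r : ℕ) : ℝ) ^ 2 := by
      simp only [hW1]
      rw [← Finset.sum_filter, Finset.mul_sum]
    have e2 : ∑ q ∈ S', 1 / ((r / Nat.gcd q r : ℕ) : ℝ) ^ 2 =
        ∑ p ∈ S'.image (fun q => (q / Nat.gcd q r, r / Nat.gcd q r)), 1 / ((p.2 : ℝ)) ^ 2 := by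
      rw [Finset.sum_image]
      intro a ha b hb hab
      simp only [Prod.mk.injEq] at hab
      obtain ⟨h1, h2⟩ := hab
      have ga : Nat.gcd a r ∣ r := Nat.gcd_dvd_right _ _
      have gb : Nat.gcd b r ∣ r := Nat.gcd_dvd_right _ _
      have hgab : Nat.gcd a r = Nat.gcd b r := by
        have h3 := Nat.div_mul_cancel ga
        have h4 := Nat.div_mul_cancel gb
        rw [h2] at h3
        have h5 : 0 < r / Nat.gcd b r := Nat.div_pos (Nat.le_of_dvd hr1 gb) (Nat.pos_of_dvd_of_pos gb hr1)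
        exact Nat.eq_of_mul_eq_mul_left h5 (h3.trans h4.symm)
      have h6 := Nat.div_mul_cancel (Nat.gcd_dvd_left a r)
      have h7 := Nat.div_mul_cancel (Nat.gcd_dvd_left b r)
      rw [h1, hgab] at h6
      omega
    rw [e1, e2, mul_comm]
    apply mul_le_mul_of_nonneg_right _ (by positivity)
    apply zsum y₁ y₂ (ψ r) (hψ8 r)
    intro p hp
    obtain ⟨q, hq, rfl⟩ := Finset.mem_image.mp hp
    exact (Finset.mem_filter.mp hq).2.2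
  have s2 : ∀ q ∈ S, ∑ r ∈ S, W2 q r ≤ 2100 * ψ q ^ 2 := by
    intro q hq
    have hq1 := hS q hq
    set S' := S.filter (fun r => q < r ∧ Cond y₁ y₂ (ψ q) (q / Nat.gcd q r) (r / Nat.gcd q r)) with hS'
    have e1 : ∑ r ∈ S, W2 q r = ψ q ^ 2 * ∑ r ∈ S', 1 / ((r / Nat.gcd q r : ℕ) : ℝ) ^ 2 := by
      simp only [hW2]
      rw [← Finset.sum_filter, Finset.mul_sum]
    have e2 : ∑ r ∈ S', 1 / ((r / Nat.gcd q r : ℕ) : ℝ) ^ 2 =
        ∑ p ∈ S'.image (fun r => (q / Nat.gcd q r, r / Nat.gcd q r)), 1 / ((p.2 : ℝ)) ^ 2 := by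
      rw [Finset.sum_image]
      intro a ha b hb hab
      simp only [Prod.mk.injEq] at hab
      obtain ⟨h1, h2⟩ := hab
      have ga : Nat.gcd q a ∣ q := Nat.gcd_dvd_left _ _
      have gb : Nat.gcd q b ∣ q := Nat.gcd_dvd_left _ _
      have hgab : Nat.gcd q a = Nat.gcd q b := by
        have h3 := Nat.div_mul_cancel ga
        have h4 := Nat.div_mul_cancel gb
        rw [h1] at h3
        have h5 : 0 < q / Nat.gcd q b := Nat.div_pos (Nat.le_of_dvd hq1 gb) (Nat.pos_of_dvd_of_pos gb hq1)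
        exact Nat.eq_of_mul_eq_mul_left h5 (h3.trans h4.symm)
      have h6 := Nat.div_mul_cancel (Nat.gcd_dvd_right q a)
      have h7 := Nat.div_mul_cancel (Nat.gcd_dvd_right q b)
      rw [h2, hgab] at h6
      omega
    rw [e1, e2, mul_comm]
    apply mul_le_mul_of_nonneg_right _ (by positivity)
    apply zsum y₁ y₂ (ψ q) (hψ8 q)
    intro p hp
    obtain ⟨r, hr, rfl⟩ := Finset.mem_image.mp hp
    exact (Finset.mem_filter.mp hr).2.2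
  calc ∑ q ∈ S, ∑ r ∈ S, W y₁ y₂ ψ q r ≤ ∑ q ∈ S, ∑ r ∈ S, (W1 q r + W2 q r) :=
        Finset.sum_le_sum (fun q _ => Finset.sum_le_sum (fun r _ => hle q r))
    _ = ∑ r ∈ S, ∑ q ∈ S, W1 q r + ∑ q ∈ S, ∑ r ∈ S, W2 q r := by
        simp only [Finset.sum_add_distrib]
        rw [Finset.sum_comm]
    _ ≤ ∑ r ∈ S, 2100 * ψ r ^ 2 + ∑ q ∈ S, 2100 * ψ q ^ 2 :=
        add_le_add (Finset.sum_le_sum s1) (Finset.sum_le_sum s2)
    _ = 4200 * ∑ q ∈ S, ψ q ^ 2 := by rw [← Finset.mul_sum]; ring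

/-- The global second moment bound. -/
theorem second_moment (y₁ y₂ : ℝ) (ψ : ℕ → ℝ) (hψ : ∀ q, 0 ≤ ψ q) (hψ8 : ∀ q, ψ q ≤ 1 / 8)
    (S : Finset ℕ) (hS : ∀ q ∈ S, 1 ≤ q) :
    ∑ q ∈ S, ∑ r ∈ S, ovl y₁ y₂ ψ q r ≤
      60000 * (∑ q ∈ S, ψ q ^ 2 + (∑ q ∈ S, ψ q ^ 2) ^ 2) := by
  classical
  have hpt : ∀ q ∈ S, ∀ r ∈ S, ovl y₁ y₂ ψ q r ≤ (if q = r then 9 * ψ q ^ 2 else 0) +
      1600 * (ψ q ^ 2 * ψ r ^ 2) + 7 * (W y₁ y₂ ψ q r + W y₁ y₂ ψ r q) := by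
    intro q hq r hr
    have w1 := W_nonneg y₁ y₂ ψ q r
    have w2 := W_nonneg y₁ y₂ ψ r q
    have hp : 0 ≤ ψ q ^ 2 * ψ r ^ 2 := by positivity
    rcases lt_trichotomy q r with h | h | h
    · have := ovl_lt y₁ y₂ ψ hψ (hS q hq) h
      rw [if_neg h.ne]
      linarith
    · subst h
      have := ovl_diag y₁ y₂ ψ hψ hψ8 (hS q hq)
      rw [if_pos rfl]
      linarith
    · have := ovl_lt y₁ y₂ ψ hψ (hS r hr) h
      rw [if_neg h.ne', ovl_symm]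
      nlinarith
  set Sg := ∑ q ∈ S, ψ q ^ 2 with hSg
  have hSg0 : 0 ≤ Sg := Finset.sum_nonneg (fun _ _ => by positivity)
  have hw := sumW y₁ y₂ ψ hψ8 S hS
  have e1 : ∑ q ∈ S, ∑ r ∈ S, (if q = r then 9 * ψ q ^ 2 else 0) = 9 * Sg := by
    rw [hSg, Finset.mul_sum]
    refine Finset.sum_congr rfl (fun q hq => ?_)
    rw [Finset.sum_ite_eq, if_pos hq]
  have e2 : ∑ q ∈ S, ∑ r ∈ S, 1600 * (ψ q ^ 2 * ψ r ^ 2) = 1600 * Sg ^ 2 := by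
    rw [sq, hSg, Finset.sum_mul_sum, Finset.mul_sum]
    refine Finset.sum_congr rfl (fun q _ => ?_)
    rw [Finset.mul_sum]
  have e3 : ∑ q ∈ S, ∑ r ∈ S, 7 * (W y₁ y₂ ψ q r + W y₁ y₂ ψ r q) =
      14 * ∑ q ∈ S, ∑ r ∈ S, W y₁ y₂ ψ q r := by
    have : ∑ q ∈ S, ∑ r ∈ S, W y₁ y₂ ψ r q = ∑ q ∈ S, ∑ r ∈ S, W y₁ y₂ ψ q r := Finset.sum_comm
    simp only [← Finset.mul_sum, Finset.sum_add_distrib]
    rw [this]; ring
  calc ∑ q ∈ S, ∑ r ∈ S, ovl y₁ y₂ ψ q r ≤ ∑ q ∈ S, ∑ r ∈ S, ((if q = r then 9 * ψ q ^ 2 else 0) +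
      1600 * (ψ q ^ 2 * ψ r ^ 2) + 7 * (W y₁ y₂ ψ q r + W y₁ y₂ ψ r q)) :=
        Finset.sum_le_sum (fun q hq => Finset.sum_le_sum (fun r hr => hpt q hq r hr))
    _ = 9 * Sg + 1600 * Sg ^ 2 + 14 * ∑ q ∈ S, ∑ r ∈ S, W y₁ y₂ ψ q r := by
        simp only [Finset.sum_add_distrib]
        rw [e1, e2, ← e3]
    _ ≤ 60000 * (Sg + Sg ^ 2) := by nlinarith [sq_nonneg Sg]

end Pool.Agent.TH871.K2
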