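import Mathlib
import Pool.Agent.TH871.K2.Overlap

set_option autoImplicit false

open Finset MeasureTheory

namespace Pool.Agent.TH871.K2

theorem res_count {t r' : ℕ} {s₁ s₂ : ℤ} (hp : Prim t s₁ s₂) (a₁ c₁ a₂ c₂ : ℕ)
    (F : Finset (ℕ × ℕ)) (hF : ∀ b ∈ F, b.1 ∈ Finset.Icc a₁ c₁ ∧ b.2 ∈ Finset.Icc a₂ c₂ ∧
      (r' : ℤ) ∣ t * b.1 + s₁ ∧ (r' : ℤ) ∣ t * b.2 + s₂) :
    F.card ≤ ((Finset.Icc a₁ c₁).card / r' + 1) * ((Finset.Icc a₂ c₂).card / r' + 1) := by
  classical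
  have hcong : ∀ b ∈ F, ∀ b' ∈ F, (b.1 : ℤ) ≡ b'.1 [ZMOD r'] ∧ (b.2 : ℤ) ≡ b'.2 [ZMOD r'] := by
    intro b hb b' hb'
    obtain ⟨-, -, h1, h2⟩ := hF b hb
    obtain ⟨-, -, h3, h4⟩ := hF b' hb'
    obtain ⟨α, β, γ, h⟩ := hp
    obtain ⟨x, hx⟩ := h1
    obtain ⟨z, hz⟩ := h2
    have hcop : IsCoprime (r' : ℤ) (t : ℤ) := by
      refine ⟨β * x + γ * z, α - β * b.1 - γ * b.2, ?_⟩
      linear_combination h - β * hx - γ * hz
    constructor
    · have h5 : (r' : ℤ) ∣ t * ((b'.1 : ℤ) - b.1) := by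
        have := dvd_sub h3 ⟨x, hx⟩
        have e : ((t : ℤ) * b'.1 + s₁) - (t * b.1 + s₁) = t * ((b'.1 : ℤ) - b.1) := by ring
        rwa [e] at this
      exact (Int.modEq_iff_dvd).mpr (hcop.dvd_of_dvd_mul_left h5)
    · have h5 : (r' : ℤ) ∣ t * ((b'.2 : ℤ) - b.2) := by
        have := dvd_sub h4 ⟨z, hz⟩
        have e : ((t : ℤ) * b'.2 + s₂) - (t * b.2 + s₂) = t * ((b'.2 : ℤ) - b.2) := by ring
        rwa [e] at this
      exact (Int.modEq_iff_dvd).mpr (hcop.dvd_of_dvd_mul_left h5)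
  have key : ∀ (a x y : ℕ), a ≤ x → a ≤ y → (x : ℤ) ≡ y [ZMOD r'] → (x - a) / r' = (y - a) / r' → x = y := by
    intro a x y hx hy hmod hdiv
    have h1 : x ≡ y [MOD r'] := (Int.natCast_modEq_iff).mp hmod
    have h2 : x - a ≡ y - a [MOD r'] := by
      apply Nat.ModEq.add_right_cancel' a
      rw [Nat.sub_add_cancel hx, Nat.sub_add_cancel hy]
      exact h1
    have h3 : x - a = y - a := by
      rw [← Nat.div_add_mod (x - a) r', ← Nat.div_add_mod (y - a) r', hdiv, h2]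
    omega
  calc F.card ≤ (Finset.range ((Finset.Icc a₁ c₁).card / r' + 1) ×ˢ
        Finset.range ((Finset.Icc a₂ c₂).card / r' + 1)).card := by
        apply Finset.card_le_card_of_injOn (fun b => ((b.1 - a₁) / r', (b.2 - a₂) / r'))
        · intro b hb
          obtain ⟨h1, h2, -, -⟩ := hF b hb
          rw [Finset.mem_Icc] at h1 h2
          rw [Finset.mem_coe, Finset.mem_product, Finset.mem_range, Finset.mem_range, Nat.card_Icc, Nat.card_Icc]
          refine ⟨Nat.lt_succ_of_le (Nat.div_le_div_right ?_), Nat.lt_succ_of_le (Nat.div_le_div_right ?_)⟩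
          · omega
          · omega
        · intro b hb b' hb' heq
          simp only [Prod.mk.injEq] at heq
          obtain ⟨h1, h2, -, -⟩ := hF b hb
          obtain ⟨h3, h4, -, -⟩ := hF b' hb'
          rw [Finset.mem_Icc] at h1 h2 h3 h4
          obtain ⟨m1, m2⟩ := hcong b hb b' hb'
          exact Prod.ext (key a₁ b.1 b'.1 h1.1 h3.1 m1 heq.1) (key a₂ b.2 b'.2 h2.1 h4.1 m2 heq.2)
    _ = _ := by rw [Finset.card_product, Finset.card_range, Finset.card_range]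

/-- numerators giving points well inside `[i/n,(i+1)/n)` -/
def J (q n i : ℕ) : Finset ℕ := Finset.Icc (i * q / n + 2) ((i + 1) * q / n - 2)

theorem J_card_le {q n i : ℕ} (hn : 1 ≤ n) : ((J q n i).card : ℝ) ≤ q / n := by
  unfold J
  rw [Nat.card_Icc]
  have hn0 : (0 : ℝ) < n := by exact_mod_cast hn
  have h1 : (((i + 1) * q / n : ℕ) : ℝ) ≤ ((i + 1) * q : ℕ) / (n : ℝ) := Nat.cast_div_le
  have h2 : ((i * q : ℕ) : ℝ) / n < ((i * q / n : ℕ) : ℝ) + 1 := by
    rw [div_lt_iff₀ hn0]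
    have := Nat.lt_mul_div_succ (i * q) (show 0 < n by omega)
    have h3 : ((i * q : ℕ) : ℝ) < ((n * (i * q / n + 1) : ℕ) : ℝ) := by exact_mod_cast this
    push_cast at h3 ⊢
    linarith
  rcases Nat.lt_or_ge ((i + 1) * q / n - 2 + 1) (i * q / n + 2) with h | h
  · rw [Nat.sub_eq_zero_of_le h.le]
    simp; positivity
  · rw [Nat.cast_sub h]
    rcases Nat.lt_or_ge ((i + 1) * q / n) 2 with h' | h'
    · rw [Nat.sub_eq_zero_of_le h'.le] at h
      exact absurd h (by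
        have hz : ∀ z : ℕ, ¬ (z + 2 ≤ 0 + 1) := by intro z; omega
        exact hz _)
    · push_cast [Nat.cast_sub h']
      push_cast at h1 h2
      have e : ((i : ℝ) + 1) * q / n = (i : ℝ) * q / n + q / n := by ring
      rw [e] at h1
      linarith

theorem J_card_ge {q n i : ℕ} (hn : 1 ≤ n) : (q : ℝ) / n - 4 ≤ ((J q n i).card : ℝ) := by
  unfold J
  rw [Nat.card_Icc]
  have hn0 : (0 : ℝ) < n := by exact_mod_cast hn
  have h1 : ((i * q / n : ℕ) : ℝ) ≤ ((i * q : ℕ) : ℝ) / (n : ℝ) := Nat.cast_div_le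
  have h2 : (((i + 1) * q : ℕ) : ℝ) / n < (((i + 1) * q / n : ℕ) : ℝ) + 1 := by
    rw [div_lt_iff₀ hn0]
    have := Nat.lt_mul_div_succ ((i + 1) * q) (show 0 < n by omega)
    have h3 : (((i + 1) * q : ℕ) : ℝ) < ((n * ((i + 1) * q / n + 1) : ℕ) : ℝ) := by exact_mod_cast this
    push_cast at h3 ⊢
    linarith
  have h3 : (((i + 1) * q / n : ℕ) : ℝ) - ((i * q / n : ℕ) : ℝ) - 3 ≤
      (((i + 1) * q / n - 2 + 1 - (i * q / n + 2) : ℕ) : ℝ) := by
    have hxz : ∀ x z : ℕ, x ≤ (x - 2 + 1 - (z + 2)) + z + 3 := by intro x z; omega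
    have : (i + 1) * q / n ≤ ((i + 1) * q / n - 2 + 1 - (i * q / n + 2)) + (i * q / n) + 3 := hxz _ _
    have h4 : (((i + 1) * q / n : ℕ) : ℝ) ≤
      ((((i + 1) * q / n - 2 + 1 - (i * q / n + 2)) + (i * q / n) + 3 : ℕ) : ℝ) := by exact_mod_cast this
    push_cast at h4 ⊢
    linarith
  push_cast at h1 h2 h3 ⊢
  have e : ((i : ℝ) + 1) * q / n = (i : ℝ) * q / n + q / n := by ring
  rw [e] at h2
  linarith

theorem J_mem {q n i b : ℕ} (hn : 1 ≤ n) (hi : i < n) (hb : b ∈ J q n i) :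
    b < q ∧ i * q ≤ n * (b - 1) ∧ 1 ≤ b ∧ n * (b + 2) ≤ (i + 1) * q := by
  unfold J at hb
  rw [Finset.mem_Icc] at hb
  obtain ⟨h1, h2⟩ := hb
  have h3 : b + 2 ≤ (i + 1) * q / n := by
    generalize (i + 1) * q / n = x at *
    generalize i * q / n = z at *
    omega
  have h4 : n * (b + 2) ≤ (i + 1) * q := by
    calc n * (b + 2) ≤ n * ((i + 1) * q / n) := Nat.mul_le_mul_left n h3
      _ ≤ (i + 1) * q := Nat.mul_div_le _ _
  have h5 : (i + 1) * q / n ≤ q := by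
    apply Nat.div_le_of_le_mul
    exact Nat.mul_le_mul_right q (by omega)
  have h6 : i * q / n + 1 ≤ b - 1 := by omega
  have h7 : b < q := by omega
  have h8 : 1 ≤ b := by
    generalize i * q / n = z at *
    omega
  refine ⟨h7, ?_, h8, h4⟩
  have := Nat.lt_mul_div_succ (i * q) (show 0 < n by omega)
  calc i * q ≤ n * (i * q / n + 1) := this.le
    _ ≤ n * (b - 1) := Nat.mul_le_mul_left n h6

theorem tail_sq (t q : ℕ) (ht : 1 ≤ t) :
    ∑ r ∈ Finset.Ioc (32 * t) q, 1 / (r : ℝ) ^ 2 ≤ 1 / (16 * (t : ℝ)) := by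
  have h := sum_Ioo_inv_sq_le (α := ℝ) (32 * t) (q + 1)
  have ht0 : (0 : ℝ) < t := by exact_mod_cast ht
  have hset : Finset.Ioo (32 * t) (q + 1) = Finset.Ioc (32 * t) q := by
    ext x; simp only [Finset.mem_Ioo, Finset.mem_Ioc]; omega
  rw [hset] at h
  calc ∑ r ∈ Finset.Ioc (32 * t) q, 1 / (r : ℝ) ^ 2 = ∑ r ∈ Finset.Ioc (32 * t) q, ((r : ℝ) ^ 2)⁻¹ := by
        simp only [one_div]
    _ ≤ 2 / (((32 * t : ℕ) : ℝ) + 1) := h
    _ ≤ 1 / (16 * (t : ℝ)) := by
        rw [div_le_div_iff₀ (by positivity) (by positivity)]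
        push_cast
        nlinarith

open Classical in
theorem local_count (y₁ y₂ : ℝ) {q n i j : ℕ} (hn : 1 ≤ n) (hi : i < n) (hj : j < n)
    (hL : 4 ≤ (q : ℝ) / n) :
    ((q : ℝ) / n - 4) ^ 2 - ((q : ℝ) / n) ^ 2 / 4 - 2 * q * (Nat.log 2 q + 1) ≤
      (((J q n i ×ˢ J q n j).filter (fun b => b ∈ A y₁ y₂ q)).card : ℝ) := by
  set L : ℝ := (q : ℝ) / n with hLdef
  set P := J q n i ×ˢ J q n j with hP
  set T := (Finset.range (q + 1)).filter (fun t => InT y₁ y₂ t) with hT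
  set R : ℕ → ℕ → Finset (ℕ × ℕ) := fun t r' => P.filter (fun b =>
    (r' : ℤ) ∣ t * b.1 + round ((t : ℝ) * y₁) ∧ (r' : ℤ) ∣ t * b.2 + round ((t : ℝ) * y₂)) with hR
  have hL0 : 0 ≤ L := by linarith
  have hcover : P.filter (fun b => b ∉ A y₁ y₂ q) ⊆
      T.biUnion (fun t => (Finset.Ioc (32 * t) q).biUnion (fun r' => R t r')) := by
    intro b hb
    obtain ⟨hbP, hbA⟩ := Finset.mem_filter.mp hb
    rw [hP, Finset.mem_product] at hbP
    have hb1 := J_mem hn hi hbP.1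
    have hb2 := J_mem hn hj hbP.2
    have hrem : Removed y₁ y₂ q b := by
      by_contra hcon
      apply hbA
      unfold A
      rw [Finset.mem_filter, Finset.mem_product, Finset.mem_range, Finset.mem_range]
      exact ⟨⟨hb1.1, hb2.1⟩, hcon⟩
    obtain ⟨t, ht, r', hr'q, hr't, hd1, hd2⟩ := hrem
    have hq0 : 0 < q := by have := hb1.1; omega
    have hr'le : r' ≤ q := Nat.le_of_dvd hq0 hr'q
    rw [Finset.mem_biUnion]
    refine ⟨t, Finset.mem_filter.mpr ⟨Finset.mem_range.mpr (by omega), ht⟩, ?_⟩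
    rw [Finset.mem_biUnion]
    refine ⟨r', Finset.mem_Ioc.mpr ⟨hr't, hr'le⟩, ?_⟩
    exact Finset.mem_filter.mpr ⟨Finset.mem_product.mpr hbP, hd1, hd2⟩
  have hRcard : ∀ t ∈ T, ∀ r' ∈ Finset.Ioc (32 * t) q,
      ((R t r').card : ℝ) ≤ 2 * L ^ 2 * (1 / (r' : ℝ) ^ 2) + 2 := by
    intro t ht r' hr'
    have hInT := (Finset.mem_filter.mp ht).2
    have hr'1 : 1 ≤ r' := by have := (Finset.mem_Ioc.mp hr').1; omega
    have hr0 : (0 : ℝ) < r' := by exact_mod_cast hr'1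
    have h1 := res_count hInT.2.1 (i * q / n + 2) ((i + 1) * q / n - 2) (j * q / n + 2)
      ((j + 1) * q / n - 2) (R t r') (by
        intro b hb
        obtain ⟨hbP, h1, h2⟩ := Finset.mem_filter.mp hb
        rw [hP, Finset.mem_product] at hbP
        exact ⟨hbP.1, hbP.2, h1, h2⟩)
    have c1 := J_card_le (q := q) (i := i) hn
    have c2 := J_card_le (q := q) (i := j) hn
    unfold J at c1 c2
    have h2 : ∀ x : ℕ, (x : ℝ) ≤ L → ((x / r' + 1 : ℕ) : ℝ) ≤ L / r' + 1 := by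
      intro x hx
      push_cast
      have h3 : ((x / r' : ℕ) : ℝ) ≤ (x : ℝ) / r' := Nat.cast_div_le
      have h4 : (x : ℝ) / r' ≤ L / r' := div_le_div_of_nonneg_right hx hr0.le
      linarith
    have h3 := h2 _ c1
    have h4 := h2 _ c2
    have h5 : 0 ≤ L / r' := by positivity
    calc ((R t r').card : ℝ) ≤ (((((Finset.Icc (i * q / n + 2) ((i + 1) * q / n - 2)).card / r' + 1) *
          ((Finset.Icc (j * q / n + 2) ((j + 1) * q / n - 2)).card / r' + 1)) : ℕ) : ℝ) := by exact_mod_cast h1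
      _ ≤ (L / r' + 1) * (L / r' + 1) := by
          rw [Nat.cast_mul]
          exact mul_le_mul h3 h4 (by positivity) (by positivity)
      _ ≤ 2 * (L / r') ^ 2 + 2 := by nlinarith [sq_nonneg (L / r' - 1)]
      _ = 2 * L ^ 2 * (1 / (r' : ℝ) ^ 2) + 2 := by ring
  have hT1 : ∀ t ∈ T, ((((Finset.Ioc (32 * t) q).biUnion (fun r' => R t r')).card : ℕ) : ℝ) ≤
      (L ^ 2 / 8) * (1 / (t : ℝ)) + 2 * q := by
    intro t ht
    have hInT := (Finset.mem_filter.mp ht).2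
    have ht0 : (0 : ℝ) < t := by exact_mod_cast hInT.1
    calc ((((Finset.Ioc (32 * t) q).biUnion (fun r' => R t r')).card : ℕ) : ℝ) ≤
        ((∑ r' ∈ Finset.Ioc (32 * t) q, (R t r').card : ℕ) : ℝ) := by
          exact_mod_cast Finset.card_biUnion_le
      _ = ∑ r' ∈ Finset.Ioc (32 * t) q, ((R t r').card : ℝ) := by push_cast; rfl
      _ ≤ ∑ r' ∈ Finset.Ioc (32 * t) q, (2 * L ^ 2 * (1 / (r' : ℝ) ^ 2) + 2) :=
          Finset.sum_le_sum (fun r' hr' => hRcard t ht r' hr')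
      _ = 2 * L ^ 2 * ∑ r' ∈ Finset.Ioc (32 * t) q, 1 / (r' : ℝ) ^ 2 + 2 * (Finset.Ioc (32 * t) q).card := by
          rw [Finset.sum_add_distrib, ← Finset.mul_sum, Finset.sum_const, nsmul_eq_mul]; ring
      _ ≤ 2 * L ^ 2 * (1 / (16 * t)) + 2 * q := by
          apply add_le_add
          · exact mul_le_mul_of_nonneg_left (tail_sq t q hInT.1) (by positivity)
          · rw [Nat.card_Ioc]
            apply mul_le_mul_of_nonneg_left _ (by norm_num)
            exact_mod_cast Nat.sub_le _ _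
      _ = (L ^ 2 / 8) * (1 / (t : ℝ)) + 2 * q := by field_simp; ring
  have hbad : ((P.filter (fun b => b ∉ A y₁ y₂ q)).card : ℝ) ≤ L ^ 2 / 4 + 2 * q * (Nat.log 2 q + 1) := by
    calc ((P.filter (fun b => b ∉ A y₁ y₂ q)).card : ℝ) ≤
        ((∑ t ∈ T, ((Finset.Ioc (32 * t) q).biUnion (fun r' => R t r')).card : ℕ) : ℝ) := by
          exact_mod_cast (Finset.card_le_card hcover).trans Finset.card_biUnion_le
      _ = ∑ t ∈ T, ((((Finset.Ioc (32 * t) q).biUnion (fun r' => R t r')).card : ℕ) : ℝ) := by push_cast; rfl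
      _ ≤ ∑ t ∈ T, ((L ^ 2 / 8) * (1 / (t : ℝ)) + 2 * q) := Finset.sum_le_sum hT1
      _ = (L ^ 2 / 8) * ∑ t ∈ T, (1 : ℝ) / t + T.card * (2 * q) := by
          rw [Finset.sum_add_distrib, ← Finset.mul_sum, Finset.sum_const, nsmul_eq_mul]
      _ ≤ (L ^ 2 / 8) * 2 + (Nat.log 2 q + 1) * (2 * q) := by
          apply add_le_add
          · exact mul_le_mul_of_nonneg_left (sumT T (fun t ht => (Finset.mem_filter.mp ht).2)) (by positivity)
          · apply mul_le_mul_of_nonneg_right _ (by positivity)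
            have := cardT T (fun t ht => (Finset.mem_filter.mp ht).2) q
              (fun t ht => by have := Finset.mem_range.mp (Finset.mem_filter.mp ht).1; omega)
            exact_mod_cast this
      _ = _ := by ring
  have htot : ((P.filter (fun b => b ∈ A y₁ y₂ q)).card : ℝ) + ((P.filter (fun b => b ∉ A y₁ y₂ q)).card : ℝ) =
      (P.card : ℝ) := by
    have := Finset.card_filter_add_card_filter_not (s := P) (fun b => b ∈ A y₁ y₂ q)
    exact_mod_cast this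
  have hPc : (L - 4) ^ 2 ≤ (P.card : ℝ) := by
    rw [hP, Finset.card_product]
    push_cast
    have c1 := J_card_ge (q := q) (i := i) hn
    have c2 := J_card_ge (q := q) (i := j) hn
    rw [← hLdef] at c1 c2
    rw [sq]
    exact mul_le_mul c1 c2 (by linarith) (by positivity)
  linarith

end Pool.Agent.TH871.K2
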