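import Mathlib
import Pool.Agent.TH871.K2.Local
import Pool.Agent.TH871.K2.CS

set_option autoImplicit false

open Finset MeasureTheory Filter Topology

namespace Pool.Agent.TH871.K2

/-- half-open grid cell -/
def cell (n i j : ℕ) : Set (ℝ × ℝ) :=
  Set.Ico ((i : ℝ) / n) (((i : ℝ) + 1) / n) ×ˢ Set.Ico ((j : ℝ) / n) (((j : ℝ) + 1) / n)

theorem cell_meas (n i j : ℕ) : MeasurableSet (cell n i j) :=
  measurableSet_Ico.prod measurableSet_Ico

theorem cell_vol {n : ℕ} (hn : 1 ≤ n) (i j : ℕ) : volume.real (cell n i j) = 1 / (n : ℝ) ^ 2 := by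
  have hn0 : (0 : ℝ) < n := by exact_mod_cast hn
  unfold cell
  rw [Measure.volume_eq_prod, Measure.real, Measure.prod_prod, Real.volume_Ico, Real.volume_Ico,
    ENNReal.toReal_mul]
  have e : ∀ k : ℕ, ((k : ℝ) + 1) / n - k / n = 1 / n := fun k => by ring
  rw [e, e, ENNReal.toReal_ofReal (by positivity)]
  ring

theorem cell_fin (n i j : ℕ) : volume (cell n i j) ≠ ⊤ := by
  unfold cell
  rw [Measure.volume_eq_prod, Measure.prod_prod, Real.volume_Ico, Real.volume_Ico]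
  exact ENNReal.mul_ne_top ENNReal.ofReal_ne_top ENNReal.ofReal_ne_top

theorem ball_sub_cell {y₁ y₂ ψ : ℝ} (h1 : 0 ≤ y₁) (h1' : y₁ < 1) (h2 : 0 ≤ y₂) (h2' : y₂ < 1)
    (hψ8 : ψ ≤ 1 / 8) {q n i j : ℕ} (hn : 1 ≤ n) (hq : 1 ≤ q) (hi : i < n) (hj : j < n)
    {b : ℕ × ℕ} (hb : b ∈ J q n i ×ˢ J q n j) :
    Metric.ball (cen y₁ y₂ q b) (ψ / q) ⊆ cell n i j := by
  intro x hx
  rw [Metric.mem_ball, Prod.dist_eq, max_lt_iff, Real.dist_eq, Real.dist_eq] at hx
  rw [Finset.mem_product] at hb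
  have hn0 : (0 : ℝ) < n := by exact_mod_cast hn
  have hq0 : (0 : ℝ) < q := by exact_mod_cast hq
  have key : ∀ (y z : ℝ) (c k : ℕ), 0 ≤ y → y < 1 → k < n → c ∈ J q n k →
      |z - ((c : ℝ) + y) / q| < ψ / q → z ∈ Set.Ico ((k : ℝ) / n) (((k : ℝ) + 1) / n) := by
    intro y z c k hy hy' hk hc hz
    obtain ⟨-, a1, a2, a3⟩ := J_mem hn hk hc
    rw [abs_lt] at hz
    have a1' : (k : ℝ) * q ≤ n * (c - 1) := by
      have : ((k * q : ℕ) : ℝ) ≤ ((n * (c - 1) : ℕ) : ℝ) := by exact_mod_cast a1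
      push_cast [Nat.cast_sub a2] at this
      exact this
    have a3' : (n : ℝ) * (c + 2) ≤ (k + 1) * q := by exact_mod_cast a3
    constructor
    · rw [div_le_iff₀ hn0]
      have h3 : ((c : ℝ) + y) / q - ψ / q < z := by linarith [hz.1]
      have h4 : ((c : ℝ) - 1) / q ≤ ((c : ℝ) + y) / q - ψ / q := by
        rw [← sub_div]
        apply div_le_div_of_nonneg_right _ hq0.le
        linarith
      have h5 : (k : ℝ) / n ≤ ((c : ℝ) - 1) / q := by
        rw [div_le_div_iff₀ hn0 hq0]; linarith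
      have h6 : (k : ℝ) / n ≤ z := by linarith
      rw [div_le_iff₀ hn0] at h6
      exact h6
    · have h3 : z < ((c : ℝ) + y) / q + ψ / q := by linarith [hz.2]
      have h4 : ((c : ℝ) + y) / q + ψ / q ≤ ((c : ℝ) + 2) / q := by
        rw [← add_div]
        apply div_le_div_of_nonneg_right _ hq0.le
        linarith
      have h5 : ((c : ℝ) + 2) / q ≤ ((k : ℝ) + 1) / n := by
        rw [div_le_div_iff₀ hq0 hn0]; linarith
      linarith
  exact ⟨key y₁ x.1 b.1 i h1 h1' hi hb.1 hx.1, key y₂ x.2 b.2 j h2 h2' hj hb.2 hx.2⟩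

theorem eventually_big {n : ℕ} (hn : 1 ≤ n) : ∃ q₀ : ℕ, ∀ q : ℕ, q₀ ≤ q → 1 ≤ q ∧ 4 ≤ (q : ℝ) / n ∧
    ((q : ℝ) / n) ^ 2 / 2 ≤ ((q : ℝ) / n - 4) ^ 2 - ((q : ℝ) / n) ^ 2 / 4 - 2 * q * (Nat.log 2 q + 1) := by
  have hn0 : (0 : ℝ) < n := by exact_mod_cast hn
  have hc : 0 < Real.log 2 / (32 * (n : ℝ) ^ 2) := by
    have := Real.log_pos (by norm_num : (1 : ℝ) < 2)
    positivity
  have h1 := (Real.isLittleO_log_id_atTop.bound hc)
  have h2 := tendsto_natCast_atTop_atTop (R := ℝ) |>.eventually h1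
  obtain ⟨q₁, hq₁⟩ := eventually_atTop.mp h2
  refine ⟨max q₁ (64 * n ^ 2), ?_⟩
  intro q hq
  have hqa : q₁ ≤ q := (le_max_left _ _).trans hq
  have hqb : 64 * n ^ 2 ≤ q := (le_max_right _ _).trans hq
  have hqb' : 64 * (n : ℝ) ^ 2 ≤ q := by exact_mod_cast hqb
  have hn1 : (1 : ℝ) ≤ n := by exact_mod_cast hn
  have hq0 : (0 : ℝ) < q := by nlinarith
  have hlog := hq₁ q hqa
  rw [id, Real.norm_of_nonneg hq0.le] at hlog
  have hlog2 : (Nat.log 2 q : ℝ) ≤ q / (32 * (n : ℝ) ^ 2) := by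
    have h3 := Real.natLog_le_logb q 2
    have h4 : Real.logb 2 (q : ℝ) = Real.log q / Real.log 2 := rfl
    have hl2 := Real.log_pos (by norm_num : (1 : ℝ) < 2)
    have h5 : Real.log q / Real.log 2 ≤ q / (32 * (n : ℝ) ^ 2) := by
      rw [div_le_iff₀ hl2]
      calc Real.log q ≤ ‖Real.log (q : ℝ)‖ := le_abs_self _
        _ ≤ Real.log 2 / (32 * (n : ℝ) ^ 2) * q := hlog
        _ = q / (32 * (n : ℝ) ^ 2) * Real.log 2 := by ring
    have h6 : (Nat.log 2 q : ℝ) ≤ Real.logb 2 (q : ℝ) := by exact_mod_cast h3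
    rw [h4] at h6
    linarith
  have hL : 64 * (n : ℝ) ≤ (q : ℝ) / n := by
    rw [le_div_iff₀ hn0]; nlinarith
  refine ⟨?_, by nlinarith, ?_⟩
  · have : 0 < 64 * n ^ 2 := by positivity
    omega
  · set L : ℝ := (q : ℝ) / n with hLd
    have hqL : (q : ℝ) = L * n := by rw [hLd]; field_simp
    have h7 : (Nat.log 2 q : ℝ) ≤ L / (32 * n) := by
      rw [hqL] at hlog2
      calc (Nat.log 2 q : ℝ) ≤ L * n / (32 * (n : ℝ) ^ 2) := hlog2
        _ = L / (32 * n) := by field_simp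
    have h8 : 2 * (q : ℝ) * (Nat.log 2 q + 1) ≤ L ^ 2 / 16 + 2 * (L * n) := by
      rw [hqL]
      calc 2 * (L * n) * ((Nat.log 2 q : ℝ) + 1) ≤ 2 * (L * n) * (L / (32 * n) + 1) := by
            apply mul_le_mul_of_nonneg_left _ (by positivity)
            linarith
        _ = L ^ 2 / 16 + 2 * (L * n) := by field_simp; ring
    have h9 : L * n ≤ L ^ 2 / 64 := by nlinarith
    have h10 : 8 * L ≤ L ^ 2 / 8 := by nlinarith
    nlinarith

/-- every cell receives its share of the mass of the balls, for large `q` -/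
theorem local_mass (y₁ y₂ : ℝ) (h1 : 0 ≤ y₁) (h1' : y₁ < 1) (h2 : 0 ≤ y₂) (h2' : y₂ < 1)
    (ψ : ℕ → ℝ) (hψ : ∀ q, 0 ≤ ψ q) (hψ8 : ∀ q, ψ q ≤ 1 / 8) {n : ℕ} (hn : 1 ≤ n) :
    ∃ q₀ : ℕ, ∀ q : ℕ, q₀ ≤ q → 1 ≤ q ∧ ∀ i < n, ∀ j < n,
      2 * ψ q ^ 2 * (1 / (n : ℝ) ^ 2) ≤
        ∑ b ∈ A y₁ y₂ q, volume.real (Metric.ball (cen y₁ y₂ q b) (ψ q / q) ∩ cell n i j) := by
  classical
  obtain ⟨q₀, hq₀⟩ := eventually_big hn
  refine ⟨q₀, fun q hq => ?_⟩
  obtain ⟨hq1, hL, hbig⟩ := hq₀ q hq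
  refine ⟨hq1, fun i hi j hj => ?_⟩
  have hn0 : (0 : ℝ) < n := by exact_mod_cast hn
  have hq0 : (0 : ℝ) < q := by exact_mod_cast hq1
  have hcount := local_count y₁ y₂ hn hi hj hL
  set P := (J q n i ×ˢ J q n j).filter (fun b => b ∈ A y₁ y₂ q) with hP
  have hsub : P ⊆ A y₁ y₂ q := fun b hb => (Finset.mem_filter.mp hb).2
  calc 2 * ψ q ^ 2 * (1 / (n : ℝ) ^ 2) = ((q : ℝ) / n) ^ 2 / 2 * (2 * (ψ q / q)) ^ 2 := by
        field_simp
    _ ≤ P.card * (2 * (ψ q / q)) ^ 2 := by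
        apply mul_le_mul_of_nonneg_right _ (by positivity)
        linarith
    _ = ∑ b ∈ P, volume.real (Metric.ball (cen y₁ y₂ q b) (ψ q / q) ∩ cell n i j) := by
        rw [← nsmul_eq_mul, ← Finset.sum_const]
        refine Finset.sum_congr rfl (fun b hb => ?_)
        have hb' := (Finset.mem_filter.mp hb).1
        rw [Set.inter_eq_left.mpr (ball_sub_cell h1 h1' h2 h2' (hψ8 q) hn hq1 hi hj hb'),
          vol_ball _ (div_nonneg (hψ q) hq0.le)]
    _ ≤ _ := Finset.sum_le_sum_of_subset_of_nonneg hsub (fun _ _ _ => measureReal_nonneg)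

theorem cell_disj {n : ℕ} (hn : 1 ≤ n) {i j i' j' : ℕ} (h : (i, j) ≠ (i', j')) :
    Disjoint (cell n i j) (cell n i' j') := by
  have hn0 : (0 : ℝ) < n := by exact_mod_cast hn
  have key : ∀ (k l : ℕ) (z : ℝ), z ∈ Set.Ico ((k : ℝ) / n) (((k : ℝ) + 1) / n) →
      z ∈ Set.Ico ((l : ℝ) / n) (((l : ℝ) + 1) / n) → k = l := by
    intro k l z hk hl
    have a1 := hk.1.trans_lt hl.2
    have a2 := hl.1.trans_lt hk.2
    rw [div_lt_div_iff_of_pos_right hn0] at a1 a2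
    have b1 : k < l + 1 := by exact_mod_cast a1
    have b2 : l < k + 1 := by exact_mod_cast a2
    omega
  rw [Set.disjoint_left]
  rintro ⟨x, z⟩ ⟨hx, hz⟩ ⟨hx', hz'⟩
  apply h
  rw [key i i' x hx hx', key j j' z hz hz']

theorem null_of_avoid (y₁ y₂ : ℝ) (h1 : 0 ≤ y₁) (h1' : y₁ < 1) (h2 : 0 ≤ y₂) (h2' : y₂ < 1)
    (ψ : ℕ → ℝ) (hψ : ∀ q, 0 ≤ ψ q) (hψ8 : ∀ q, ψ q ≤ 1 / 8)
    (hdiv : ¬ Summable (fun q => ψ q ^ 2)) (N : ℕ) (K : Set (ℝ × ℝ)) (hK : IsCompact K)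
    (hK1 : K ⊆ Set.Icc (0 : ℝ × ℝ) 1)
    (hav : ∀ q, N ≤ q → 1 ≤ q → ∀ b ∈ A y₁ y₂ q,
      Disjoint (Metric.ball (cen y₁ y₂ q b) (ψ q / q)) K) : volume K = 0 := by
  classical
  have hKf : volume K ≠ ⊤ := hK.measure_lt_top.ne
  set κ := volume.real K with hκ
  have hκ0 : 0 ≤ κ := measureReal_nonneg
  have main : ∀ n : ℕ, 1 ≤ n →
      κ ^ 2 ≤ 30000 * (volume.real (Metric.cthickening (1 / (n : ℝ)) K) - κ) := by
    intro n hn
    have hn0 : (0 : ℝ) < n := by exact_mod_cast hn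
    set V := Metric.cthickening (1 / (n : ℝ)) K \ K with hV
    have hVm : MeasurableSet V := Metric.isClosed_cthickening.measurableSet.diff hK.measurableSet
    have hcf : volume (Metric.cthickening (1 / (n : ℝ)) K) ≠ ⊤ :=
      (hK.cthickening (r := 1 / (n : ℝ))).measure_lt_top.ne
    have hVf : volume V ≠ ⊤ := ne_top_of_le_ne_top hcf (measure_mono Set.sdiff_subset)
    have hVr : volume.real V = volume.real (Metric.cthickening (1 / (n : ℝ)) K) - κ := by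
      rw [hV, measureReal_sdiff (Metric.self_subset_cthickening K) hK.measurableSet hcf]
    rw [← hVr]
    set P := ((Finset.range n) ×ˢ (Finset.range n)).filter (fun p => (cell n p.1 p.2 ∩ K).Nonempty) with hP
    set U : Set (ℝ × ℝ) := ⋃ p ∈ P, cell n p.1 p.2 with hU
    have hUsub : U ⊆ Metric.cthickening (1 / (n : ℝ)) K := by
      intro x hx
      rw [hU, Set.mem_iUnion₂] at hx
      obtain ⟨p, hp, hx⟩ := hx
      obtain ⟨k, hk, hkK⟩ := (Finset.mem_filter.mp hp).2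
      apply Metric.mem_cthickening_of_dist_le x k _ _ hkK
      have hside : ∀ (c : ℕ) (u w : ℝ), u ∈ Set.Ico ((c : ℝ) / n) (((c : ℝ) + 1) / n) →
          w ∈ Set.Ico ((c : ℝ) / n) (((c : ℝ) + 1) / n) → |u - w| ≤ 1 / n := by
        intro c u w hu hw
        have e : ((c : ℝ) + 1) / n = c / n + 1 / n := by ring
        rw [abs_le]
        constructor
        · linarith [hu.1, hw.2]
        · linarith [hu.2, hw.1]
      rw [Prod.dist_eq, Real.dist_eq, Real.dist_eq]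
      exact max_le (hside _ _ _ hx.1 hk.1) (hside _ _ _ hx.2 hk.2)
    have hKU : κ ≤ P.card * (1 / (n : ℝ) ^ 2) := by
      have hcov : K ⊆ U ∪ (({(1 : ℝ)} ×ˢ Set.univ) ∪ (Set.univ ×ˢ {(1 : ℝ)})) := by
        intro x hx
        obtain ⟨hx0, hx1⟩ := hK1 hx
        by_cases ha : x.1 = 1
        · exact Or.inr (Or.inl ⟨ha, Set.mem_univ _⟩)
        by_cases hb : x.2 = 1
        · exact Or.inr (Or.inr ⟨Set.mem_univ _, hb⟩)
        left
        have hcell : ∀ z : ℝ, 0 ≤ z → z ≤ 1 → z ≠ 1 → ∃ k, k < n ∧ z ∈ Set.Ico ((k : ℝ) / n) (((k : ℝ) + 1) / n) := by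
          intro z hz0 hz1 hz
          have hz1' : z < 1 := lt_of_le_of_ne hz1 hz
          refine ⟨⌊n * z⌋₊, ?_, ?_, ?_⟩
          · rw [Nat.floor_lt (by positivity)]; nlinarith
          · rw [div_le_iff₀ hn0, mul_comm]; exact Nat.floor_le (by positivity)
          · rw [lt_div_iff₀ hn0, mul_comm]; exact Nat.lt_floor_add_one _
        obtain ⟨i, hi, hi'⟩ := hcell x.1 hx0.1 hx1.1 ha
        obtain ⟨j, hj, hj'⟩ := hcell x.2 hx0.2 hx1.2 hb
        rw [hU, Set.mem_iUnion₂]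
        refine ⟨(i, j), ?_, ⟨hi', hj'⟩⟩
        rw [hP, Finset.mem_filter, Finset.mem_product, Finset.mem_range, Finset.mem_range]
        exact ⟨⟨hi, hj⟩, ⟨x, ⟨hi', hj'⟩, hx⟩⟩
      have hz1 : volume (({(1 : ℝ)} ×ˢ (Set.univ : Set ℝ)) : Set (ℝ × ℝ)) = 0 := by
        rw [Measure.volume_eq_prod, Measure.prod_prod, Real.volume_singleton, zero_mul]
      have hz2 : volume (((Set.univ : Set ℝ) ×ˢ {(1 : ℝ)}) : Set (ℝ × ℝ)) = 0 := by
        rw [Measure.volume_eq_prod, Measure.prod_prod, Real.volume_singleton, mul_zero]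
      have hle : volume K ≤ volume U := by
        calc volume K ≤ volume (U ∪ (({(1 : ℝ)} ×ˢ Set.univ) ∪ (Set.univ ×ˢ {(1 : ℝ)}))) := measure_mono hcov
          _ ≤ volume U + (volume (({(1 : ℝ)} ×ˢ (Set.univ : Set ℝ)) : Set (ℝ × ℝ)) +
              volume (((Set.univ : Set ℝ) ×ˢ {(1 : ℝ)}) : Set (ℝ × ℝ))) :=
              (measure_union_le _ _).trans (add_le_add_right (measure_union_le _ _) _)
          _ = volume U := by rw [hz1, hz2, add_zero, add_zero]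
      have hUf : volume U ≠ ⊤ := ne_top_of_le_ne_top hcf (measure_mono hUsub)
      calc κ ≤ volume.real U := ENNReal.toReal_mono hUf hle
        _ ≤ ∑ p ∈ P, volume.real (cell n p.1 p.2) := measureReal_biUnion_finset_le P _
        _ = P.card * (1 / (n : ℝ) ^ 2) := by
            rw [Finset.sum_congr rfl (fun p _ => cell_vol hn p.1 p.2), Finset.sum_const, nsmul_eq_mul]
    obtain ⟨q₀, hq₀⟩ := local_mass y₁ y₂ h1 h1' h2 h2' ψ hψ hψ8 hn
    -- choose the block of denominators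
    set q₁ := max q₀ N with hq₁
    have htend : Tendsto (fun M => ∑ q ∈ Finset.range M, ψ q ^ 2) atTop atTop :=
      (not_summable_iff_tendsto_nat_atTop_of_nonneg (fun q => sq_nonneg _)).mp hdiv
    obtain ⟨M, hM1, hM2⟩ := ((htend.eventually_ge_atTop
      (1 + ∑ q ∈ Finset.range q₁, ψ q ^ 2)).and (eventually_ge_atTop q₁)).exists
    set S := Finset.Ico q₁ M with hS
    set Sg := ∑ q ∈ S, ψ q ^ 2 with hSg
    have hSg1 : 1 ≤ Sg := by
      rw [hSg, hS, Finset.sum_Ico_eq_sub _ hM2]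
      linarith
    have hSq : ∀ q ∈ S, q₀ ≤ q ∧ N ≤ q := fun q hq => by
      have := (Finset.mem_Ico.mp hq).1
      exact ⟨(le_max_left _ _).trans this, (le_max_right _ _).trans this⟩
    have hS1 : ∀ q ∈ S, 1 ≤ q := fun q hq => (hq₀ q (hSq q hq).1).1
    -- lower bound for the mass in V
    have hlow : ∀ q ∈ S, 2 * κ * ψ q ^ 2 ≤
        ∑ b ∈ A y₁ y₂ q, volume.real (Metric.ball (cen y₁ y₂ q b) (ψ q / q) ∩ V) := by
      intro q hq
      obtain ⟨hqa, hqb⟩ := hSq q hq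
      obtain ⟨hq1, hcell⟩ := hq₀ q hqa
      have e1 : ∀ b ∈ A y₁ y₂ q, ∑ p ∈ P, volume.real (Metric.ball (cen y₁ y₂ q b) (ψ q / q) ∩ cell n p.1 p.2)
          ≤ volume.real (Metric.ball (cen y₁ y₂ q b) (ψ q / q) ∩ V) := by
        intro b hb
        have hd : (P : Set (ℕ × ℕ)).PairwiseDisjoint (fun p =>
            Metric.ball (cen y₁ y₂ q b) (ψ q / q) ∩ cell n p.1 p.2) := by
          intro p _ p' _ hpp
          exact (cell_disj hn hpp).mono Set.inter_subset_right Set.inter_subset_right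
        rw [← measureReal_biUnion_finset hd (fun p _ => measurableSet_ball.inter (cell_meas _ _ _))
          (fun p _ => ne_top_of_le_ne_top (cell_fin n p.1 p.2) (measure_mono Set.inter_subset_right))]
        apply measureReal_mono _ (ne_top_of_le_ne_top hVf (measure_mono Set.inter_subset_right))
        intro x hx
        rw [Set.mem_iUnion₂] at hx
        obtain ⟨p, hp, hx1, hx2⟩ := hx
        refine ⟨hx1, hUsub ?_, ?_⟩
        · rw [hU, Set.mem_iUnion₂]; exact ⟨p, hp, hx2⟩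
        · exact Set.disjoint_left.mp (hav q hqb hq1 b hb) hx1
      calc 2 * κ * ψ q ^ 2 ≤ 2 * (P.card * (1 / (n : ℝ) ^ 2)) * ψ q ^ 2 := by
            apply mul_le_mul_of_nonneg_right _ (sq_nonneg _)
            linarith
        _ = ∑ p ∈ P, 2 * ψ q ^ 2 * (1 / (n : ℝ) ^ 2) := by
            rw [Finset.sum_const, nsmul_eq_mul]; ring
        _ ≤ ∑ p ∈ P, ∑ b ∈ A y₁ y₂ q, volume.real (Metric.ball (cen y₁ y₂ q b) (ψ q / q) ∩ cell n p.1 p.2) := by
            apply Finset.sum_le_sum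
            intro p hp
            have := Finset.mem_product.mp (Finset.mem_filter.mp hp).1
            exact hcell p.1 (Finset.mem_range.mp this.1) p.2 (Finset.mem_range.mp this.2)
        _ = ∑ b ∈ A y₁ y₂ q, ∑ p ∈ P, volume.real (Metric.ball (cen y₁ y₂ q b) (ψ q / q) ∩ cell n p.1 p.2) :=
            Finset.sum_comm
        _ ≤ _ := Finset.sum_le_sum e1
    -- Cauchy-Schwarz
    set I : Finset (Σ _ : ℕ, ℕ × ℕ) := S.sigma (fun q => A y₁ y₂ q) with hI
    have hcs := cs_sets (volume : Measure (ℝ × ℝ)) I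
      (fun p => Metric.ball (cen y₁ y₂ p.1 p.2) (ψ p.1 / p.1))
      (fun p _ => measurableSet_ball) (fun p _ => vol_ball_ne_top _ _) V hVm hVf
    have hsum1 : 2 * κ * Sg ≤ ∑ p ∈ I, volume.real (Metric.ball (cen y₁ y₂ p.1 p.2) (ψ p.1 / p.1) ∩ V) := by
      rw [hI, Finset.sum_sigma, hSg, Finset.mul_sum]
      exact Finset.sum_le_sum hlow
    have hsum2 : ∑ p ∈ I, ∑ p' ∈ I, volume.real (Metric.ball (cen y₁ y₂ p.1 p.2) (ψ p.1 / p.1) ∩
        Metric.ball (cen y₁ y₂ p'.1 p'.2) (ψ p'.1 / p'.1)) = ∑ q ∈ S, ∑ r ∈ S, ovl y₁ y₂ ψ q r := by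
      rw [hI, Finset.sum_sigma]
      refine Finset.sum_congr rfl (fun q _ => ?_)
      unfold ovl
      rw [Finset.sum_comm (s := S) (t := A y₁ y₂ q)]
      refine Finset.sum_congr rfl (fun a _ => ?_)
      rw [Finset.sum_sigma]
    have hsm := second_moment y₁ y₂ ψ hψ hψ8 S hS1
    rw [hsum2] at hcs
    rw [← hSg] at hsm
    have hV0 : 0 ≤ volume.real V := measureReal_nonneg
    have h3 : (2 * κ * Sg) ^ 2 ≤ volume.real V * (60000 * (Sg + Sg ^ 2)) := by
      calc (2 * κ * Sg) ^ 2 ≤ (∑ p ∈ I, volume.real (Metric.ball (cen y₁ y₂ p.1 p.2) (ψ p.1 / p.1) ∩ V)) ^ 2 :=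
            pow_le_pow_left₀ (by positivity) hsum1 2
        _ ≤ _ := hcs
        _ ≤ _ := mul_le_mul_of_nonneg_left hsm hV0
    have h4 : volume.real V * (60000 * (Sg + Sg ^ 2)) ≤ volume.real V * (120000 * Sg ^ 2) := by
      apply mul_le_mul_of_nonneg_left _ hV0
      nlinarith
    have h5 : 4 * κ ^ 2 * Sg ^ 2 ≤ (120000 * volume.real V) * Sg ^ 2 := by nlinarith
    have h6 : 4 * κ ^ 2 ≤ 120000 * volume.real V := le_of_mul_le_mul_right h5 (by positivity)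
    linarith
  -- let n tend to infinity
  have hlim : Tendsto (fun n : ℕ => 30000 * (volume.real (Metric.cthickening (1 / (n : ℝ)) K) - κ))
      atTop (𝓝 (30000 * (κ - κ))) := by
    have h1 : Tendsto (fun r => volume (Metric.cthickening r K)) (𝓝 0) (𝓝 (volume K)) :=
      tendsto_measure_cthickening_of_isCompact hK
    have h2 : Tendsto (fun n : ℕ => 1 / (n : ℝ)) atTop (𝓝 0) := tendsto_one_div_atTop_nhds_zero_nat
    have h3 := (ENNReal.tendsto_toReal hKf).comp (h1.comp h2)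
    exact (h3.sub_const κ).const_mul 30000
  rw [sub_self, mul_zero] at hlim
  have h0 : κ ^ 2 ≤ 0 := by
    apply ge_of_tendsto hlim
    filter_upwards [eventually_ge_atTop 1] with n hn
    exact main n hn
  have hκz : κ = 0 := by
    have := sq_nonneg κ
    exact pow_eq_zero_iff (two_ne_zero) |>.mp (le_antisymm h0 this)
  rw [hκ, Measure.real, ENNReal.toReal_eq_zero_iff] at hκz
  exact hκz.resolve_right hKf

/-- The inhomogeneous Khintchine theorem in dimension two without monotonicity. -/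
theorem main (y : ℝ × ℝ) (ψ : ℕ → ℝ) (hψ : ∀ q, 0 ≤ ψ q) (hdiv : ¬ Summable (fun q : ℕ => ψ q ^ 2)) :
    ∀ᵐ x ∂(MeasureTheory.volume.restrict (Set.Icc (0 : ℝ × ℝ) 1)),
        {q : ℕ | 0 < q ∧ ∃ a : ℤ × ℤ,
          ‖(q : ℝ) • x - ((a.1 : ℝ), (a.2 : ℝ)) - y‖ < ψ q}.Infinite := by
  classical
  set φ : ℕ → ℝ := fun q => min (ψ q) (1 / 8) with hφ
  have hφ0 : ∀ q, 0 ≤ φ q := fun q => le_min (hψ q) (by norm_num)
  have hφ8 : ∀ q, φ q ≤ 1 / 8 := fun q => min_le_right _ _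
  have hφψ : ∀ q, φ q ≤ ψ q := fun q => min_le_left _ _
  have hφd : ¬ Summable (fun q : ℕ => φ q ^ 2) := by
    intro hs
    apply hdiv
    have h0 := hs.tendsto_atTop_zero
    have h1 : ∀ᶠ q in atTop, φ q ^ 2 < (1 / 8) ^ 2 := h0.eventually_lt_const (by norm_num)
    apply (summable_congr_atTop (f₁ := fun q : ℕ => φ q ^ 2) ?_).mp hs
    filter_upwards [h1] with q hq
    have h2 : φ q < 1 / 8 := lt_of_pow_lt_pow_left₀ 2 (by norm_num) hq
    have h3 : φ q = ψ q := by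
      rcases min_choice (ψ q) (1 / 8) with h | h
      · exact h
      · exfalso
        have : φ q = 1 / 8 := h
        linarith
    simp only [h3]
  set y₁ := Int.fract y.1 with hy₁
  set y₂ := Int.fract y.2 with hy₂
  set K : ℕ → Set (ℝ × ℝ) := fun N => Set.Icc (0 : ℝ × ℝ) 1 ∩
    ⋂ q ∈ {q : ℕ | N ≤ q ∧ 1 ≤ q}, ⋂ b ∈ A y₁ y₂ q, (Metric.ball (cen y₁ y₂ q b) (φ q / q))ᶜ with hKdef
  have hKnull : ∀ N, volume (K N) = 0 := by
    intro N
    apply null_of_avoid y₁ y₂ (Int.fract_nonneg _) (Int.fract_lt_one _) (Int.fract_nonneg _)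
      (Int.fract_lt_one _) φ hφ0 hφ8 hφd N (K N)
    · apply isCompact_Icc.inter_right
      apply isClosed_biInter
      intro q _
      apply isClosed_biInter
      intro b _
      exact Metric.isOpen_ball.isClosed_compl
    · exact Set.inter_subset_left
    · intro q hqN hq1 b hb
      rw [Set.disjoint_left]
      intro x hx hxK
      have h1 := hxK.2
      simp only [Set.mem_iInter] at h1
      exact h1 q ⟨hqN, hq1⟩ b hb hx
  rw [ae_restrict_iff' measurableSet_Icc, ae_iff]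
  apply measure_mono_null _ (measure_iUnion_null hKnull)
  intro x hx
  simp only [Set.mem_ofPred_eq, Classical.not_imp, Set.not_infinite] at hx
  obtain ⟨hx1, hfin⟩ := hx
  obtain ⟨N, hN⟩ := hfin.bddAbove
  rw [Set.mem_iUnion]
  refine ⟨N + 1, hx1, ?_⟩
  simp only [Set.mem_iInter]
  intro q hq b _ hxb
  have hq1 : 1 ≤ q := hq.2
  have hq0 : (0 : ℝ) < q := by exact_mod_cast hq1
  have hmem : q ∈ {q : ℕ | 0 < q ∧ ∃ a : ℤ × ℤ,
          ‖(q : ℝ) • x - ((a.1 : ℝ), (a.2 : ℝ)) - y‖ < ψ q} := by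
    refine ⟨hq1, ((b.1 : ℤ) - ⌊y.1⌋, (b.2 : ℤ) - ⌊y.2⌋), ?_⟩
    rw [Metric.mem_ball, Prod.dist_eq, max_lt_iff, Real.dist_eq, Real.dist_eq] at hxb
    unfold cen at hxb
    simp only at hxb
    have key : ∀ (z w : ℝ) (c : ℕ), |z - ((c : ℝ) + Int.fract w) / q| < φ q / q →
        |(q : ℝ) * z - (((c : ℤ) - ⌊w⌋ : ℤ) : ℝ) - w| < ψ q := by
      intro z w c h
      have e : (q : ℝ) * z - (((c : ℤ) - ⌊w⌋ : ℤ) : ℝ) - w = q * (z - ((c : ℝ) + Int.fract w) / q) := by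
        rw [mul_sub, mul_div_cancel₀ _ hq0.ne']
        push_cast
        have := Int.floor_add_fract w
        linarith
      rw [e, abs_mul, abs_of_pos hq0]
      calc (q : ℝ) * |z - ((c : ℝ) + Int.fract w) / q| < q * (φ q / q) := mul_lt_mul_of_pos_left h hq0
        _ = φ q := by field_simp
        _ ≤ ψ q := hφψ q
    rw [Prod.norm_def, max_lt_iff]
    exact ⟨key x.1 y.1 b.1 hxb.1, key x.2 y.2 b.2 hxb.2⟩
  have := hN hmem
  have h2 : N + 1 ≤ q := hq.1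
  omega

end Pool.Agent.TH871.K2
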